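import Pool.Agent.Lib.MP_ecd12e_nt.DH2.Defs

/-!
The pivot on the third edge.
-/

set_option autoImplicit false

namespace Pool.Agent.Lib.MP_ecd12e_nt.DH

open Finset Real MeasureTheory
open Pool.Agent.Lib.MP_ecd12e_nt.Bar (ei)
open Pool.Agent.Lib.MP_ecd12e_nt.Sch

variable {k : ℤ → ℝ} {W : Finset ℤ} {H : ℤ} {L : ℕ} {K N V Y Z : ℝ}

/-- A weak bound on all subsums gives the sum of squares up to a harmonic factor. -/
lemma piv_harm (f : ℤ → ℝ) (hf : ∀ t, 0 ≤ f t) {c : ℝ} (s : Finset ℤ)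
    (h : ∀ S ⊆ s, (∑ l ∈ S, f l) ^ 2 ≤ c * S.card) :
    ∑ l ∈ s, f l ^ 2 ≤ c * (harmonic s.card : ℝ) := by
  induction s using Finset.induction_on_min_value f with
  | empty => simp
  | insert a s ha hm ih =>
    have h1 := h _ Subset.rfl
    have h2 := ih fun S hS => h S (hS.trans (subset_insert _ _))
    have h3 : ((s.card : ℝ) + 1) * f a ≤ ∑ l ∈ insert a s, f l := by
      have h4 := card_nsmul_le_sum s f _ hm
      rw [nsmul_eq_mul] at h4
      rw [sum_insert ha]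
      linarith
    rw [card_insert_of_notMem ha] at h1
    rw [sum_insert ha, card_insert_of_notMem ha, harmonic_succ]
    push_cast at h1 ⊢
    have h0 : (0 : ℝ) < s.card + 1 := by positivity
    have h5 := (pow_le_pow_left₀ (mul_nonneg h0.le (hf a)) h3 2).trans h1
    have h6 : f a ^ 2 ≤ c * ((s.card : ℝ) + 1)⁻¹ := by
      rw [← div_eq_mul_inv, le_div_iff₀ h0]
      refine le_of_mul_le_mul_right ?_ h0
      linarith
    linarith

lemma piv_shift (A B : Finset ℤ) (c : ℤ) (g : ℤ → ℝ) (hg : ∀ t, 0 ≤ g t) :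
    ∑ m ∈ A.filter (fun m => c + m ∈ B), g m ≤ ∑ a ∈ B, g (a - c) := by
  have hi : Function.Injective fun m : ℤ => c + m := fun x y e => by simpa using e
  have e : ∑ m ∈ A.filter (fun m => c + m ∈ B), g m =
      ∑ a ∈ (A.filter fun m => c + m ∈ B).image fun m => c + m, g (a - c) := by
    rw [sum_image hi.injOn]
    simp only [add_sub_cancel_left]
  rw [e]
  refine sum_le_sum_of_subset_of_nonneg (fun a ha => ?_) fun a _ _ => hg _
  obtain ⟨m, hm, rfl⟩ := mem_image.1 ha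
  exact (mem_filter.1 hm).2

lemma Env.six2 (E : Env k W H L K N V Y Z) {x y : ℝ} (hx : V ^ 2 / (8 * N) ≤ x)
    (hy : V ^ 2 / (8 * N) ≤ y) {S B : Finset ℤ} (hS : S ⊆ lev k H x) (hB : B ⊆ lev k H y) :
    (∑ s ∈ S, ∑ b ∈ B, k (s - b) ^ 6) ^ 2 ≤ K ^ 6 * N ^ 6 * Y ^ 2 * S.card * B.card := by
  have hY := E.hY
  have hN := E.hN
  have hK : 0 ≤ K := le_trans (by positivity) E.hK
  have h0 : ∀ {u : ℝ} {A : Finset ℤ}, V ^ 2 / (8 * N) ≤ u → A ⊆ lev k H u →
      (A.card : ℝ) ^ 2 + A.card * Y ≤ A.card * (K ^ 2 * Y) := fun {u A} hu hA => by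
    have h1 : (A.card : ℝ) ≤ (lev k H u).card := by exact_mod_cast card_le_card hA
    have h2 := E.lev_card hu
    have h3 := mul_le_mul_of_nonneg_left (show A.card + Y ≤ K ^ 2 * Y by linarith)
      (Nat.cast_nonneg (α := ℝ) A.card)
    linarith
  have h1 := E.six S B (-H) (fun t ht => by have := (mem_lev.1 (hS ht)).1; omega)
    fun t ht => by have := (mem_lev.1 (hB ht)).1; omega
  have h2 := h0 hx hS
  have h3 := h0 hy hB
  refine (pow_le_pow_left₀ (sum_nonneg fun _ _ => sum_nonneg fun _ _ => by positivity) h1 2).trans ?_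
  rw [mul_pow, mul_pow, Real.sq_sqrt (by positivity), Real.sq_sqrt (by positivity)]
  calc _ ≤ (K * N ^ 3) ^ 2 * (S.card * (K ^ 2 * Y)) * (B.card * (K ^ 2 * Y)) := by gcongr
    _ = _ := by ring

lemma Env.six1 (E : Env k W H L K N V Y Z) {x : ℝ} (hx : V ^ 2 / (8 * N) ≤ x)
    {S : Finset ℤ} (hS : S ⊆ lev k H x) :
    ∑ s ∈ S, ∑ b ∈ S, k (s - b) ^ 6 ≤ K ^ 3 * N ^ 3 * Y * S.card := by
  have hY := E.hY
  have hN := E.hN
  have hK : 0 ≤ K := le_trans (by positivity) E.hK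
  exact le_of_pow_le_pow_left₀ two_ne_zero (by positivity)
    ((E.six2 hx hx hS hS).trans_eq (by ring))

lemma Env.two1 (E : Env k W H L K N V Y Z) {x : ℝ} (hx : V ^ 2 / (8 * N) ≤ x) {y : ℝ}
    {S : Finset ℤ} (hS : S ⊆ lev k H x) :
    (∑ s ∈ S, ∑ b ∈ S, k (s - b) ^ 2) * x ^ 8 * y ^ 2 ≤
      K ^ 3 * N ^ 3 * Y * (S.card * y ^ 6) + (S.card * x ^ 6) ^ 2 := by
  have hY := E.hY
  have hN := E.hN
  have hK : 0 ≤ K := le_trans (by positivity) E.hK
  have h1 := pow_sum_le_card_mul_sum_pow (s := S ×ˢ S) (f := fun p => k (p.1 - p.2) ^ 2)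
    (fun _ _ => sq_nonneg _) 2
  simp only [← pow_mul] at h1
  rw [sum_product, sum_product, card_product] at h1
  have h2 := h1.trans (mul_le_mul_of_nonneg_left (E.six1 hx hS) (by positivity))
  generalize ∑ s ∈ S, ∑ b ∈ S, k (s - b) ^ 2 = h at h2
  push_cast at h2
  obtain ⟨u, hu⟩ : ∃ u, u = K ^ 3 * N ^ 3 * Y * (S.card * y ^ 6) := ⟨_, rfl⟩
  obtain ⟨v, hv⟩ : ∃ v, v = (S.card * x ^ 6) ^ 2 := ⟨_, rfl⟩
  have hu0 : 0 ≤ u := by rw [hu]; positivity
  have hv0 : 0 ≤ v := by rw [hv]; positivity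
  have h3 : (h * x ^ 8 * y ^ 2) ^ 3 ≤ u * v ^ 2 :=
    calc _ = h ^ (2 + 1) * (x ^ 24 * y ^ 6) := by ring
      _ ≤ _ := mul_le_mul_of_nonneg_right h2 (by positivity)
      _ = _ := by rw [hu, hv]; ring
  rw [← hu, ← hv]
  refine le_of_pow_le_pow_left₀ three_ne_zero (by positivity) (h3.trans ?_)
  have h4 : (u + v) ^ 3 = u * v ^ 2 + (u ^ 3 + 3 * u ^ 2 * v + 2 * u * v ^ 2 + v ^ 3) := by ring
  rw [h4]
  exact le_add_of_nonneg_right (by positivity)

lemma piv_trg (hH : 0 < H) (x y : ℝ) : (trg k W H x y).card ≤ ∑ l ∈ lev k H y,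
    pr (((edg k W H y).filter fun p => p.1 - p.2 = l).image Prod.fst)
      ((lev k H x).filter fun m => l + m ∈ lev k H x) W := by
  refine (card_le_card (t := (lev k H y).biUnion fun l =>
    (((((edg k W H y).filter fun p => p.1 - p.2 = l).image Prod.fst) ×ˢ
      ((lev k H x).filter fun m => l + m ∈ lev k H x)).filter fun p => p.1 + p.2 ∈ W).image
        fun p => (p.1 + p.2, p.1, p.1 - l)) ?_).trans
    (card_biUnion_le.trans (sum_le_sum fun _ _ => card_image_le))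
  rintro ⟨t, s, s'⟩ hq
  rw [trg, mem_filter] at hq
  obtain ⟨-, h1, h2, h3⟩ := hq
  have h4 := mem_edg.1 h1
  have h5 := mem_edg.1 h2
  have h6 : (s, s') ∈ edg k W H y := mem_edg.2 ⟨⟨⟨h4.1.1.2, h5.1.1.2⟩, h4.1.2.symm.trans h5.1.2⟩, h3⟩
  refine mem_biUnion.2 ⟨s - s', edg_sub hH h6, mem_image.2 ⟨(s, t - s), ?_, by simp⟩⟩
  refine mem_filter.2 ⟨mem_product.2 ⟨mem_image.2 ⟨(s, s'), mem_filter.2 ⟨h6, rfl⟩, rfl⟩,
    mem_filter.2 ⟨edg_sub hH h1, ?_⟩⟩, ?_⟩
  · rw [show s - s' + (s, t - s).2 = t - s' by ring]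
    exact edg_sub hH h2
  · rw [show (s, t - s).1 + (s, t - s).2 = t by ring]
    exact h4.1.1.1

theorem comb2 (E : Env k W H L K N V Y Z) {x y : ℝ} (hx : V ^ 2 / (8 * N) ≤ x)
    (hy : V ^ 2 / (8 * N) ≤ y) : ∃ Q : ℝ, 0 ≤ Q ∧
      Q * x ^ 8 * y ^ 2 ≤ K ^ 8 * N ^ 6 * Y ^ 2 * (lev k H x).card ∧
      V ^ 2 * (trg k W H x y).card ≤
        K * N ^ 2 * (edg k W H y).card + K * N * √((edg k W H y).card : ℝ) * √Q := by
  have hY := E.hY
  have hN := E.hN
  have hV := E.hV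
  have hK9 := E.hK
  have hK : 0 ≤ K := le_trans (by positivity) hK9
  have hx0 : 0 ≤ x := le_trans (by positivity) hx
  have hy0 : 0 ≤ y := le_trans (by positivity) hy
  have hk6 : ∀ t, 0 ≤ k t ^ 6 := fun t => by positivity
  obtain ⟨D, hD⟩ : ∃ D : ℤ → Finset ℤ, ∀ l, D l = (lev k H x).filter fun m => l + m ∈ lev k H x :=
    ⟨_, fun _ => rfl⟩
  obtain ⟨U, hU⟩ : ∃ U : ℤ → Finset ℤ, ∀ l,
      U l = ((edg k W H y).filter fun p => p.1 - p.2 = l).image Prod.fst := ⟨_, fun _ => rfl⟩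
  have hD1 : ∀ l, D l ⊆ lev k H x := fun l => hD l ▸ filter_subset _ _
  refine ⟨∑ l ∈ lev k H y, ∑ s ∈ D l, ∑ b ∈ D l, k (s - b) ^ 2, by positivity, ?_, ?_⟩
  · have h1 : ∑ l ∈ lev k H y, (D l).card * y ^ 6 ≤ K ^ 3 * N ^ 3 * Y * (lev k H x).card := by
      refine le_trans ?_ (E.six1 hx Subset.rfl)
      rw [sum_comm]
      refine le_trans ?_ (sum_le_sum fun m _ => piv_shift (lev k H y) _ m _ hk6)
      simp only [sum_filter]
      rw [sum_comm]
      refine sum_le_sum fun l hl => ?_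
      rw [← sum_filter, sum_const, nsmul_eq_mul, hD]
      simp only [add_comm l]
      exact mul_le_mul_of_nonneg_left (pow_le_pow_left₀ hy0 (mem_lev.1 hl).2 6) (Nat.cast_nonneg _)
    have h2 := piv_harm (fun l => (D l).card * x ^ 6) (fun _ => by positivity)
      (c := K ^ 6 * N ^ 6 * Y ^ 2 * (lev k H x).card) (lev k H y) fun S hS => by
        refine le_trans (pow_le_pow_left₀ (by positivity) ?_ 2) (E.six2 hx hy Subset.rfl hS)
        rw [sum_comm]
        refine sum_le_sum fun l _ => le_trans ?_ (piv_shift (lev k H x) _ l _ hk6)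
        rw [← hD, ← nsmul_eq_mul]
        exact card_nsmul_le_sum _ _ _ fun m hm => pow_le_pow_left₀ hx0 (mem_lev.1 (hD1 l hm)).2 6
    have h3 : (harmonic (lev k H y).card : ℝ) ≤ 1 + K := by
      refine (harmonic_le_one_add_log _).trans (add_le_add le_rfl (le_trans ?_ E.hL))
      have h4 : ((lev k H y).card : ℝ) ≤ 2 ^ L := by
        refine le_trans ?_ E.wid
        have h5 : (lev k H y).card ≤ (Icc (-H) H).card :=
          card_le_card fun l hl => mem_Icc.2 (mem_lev.1 hl).1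
        rw [Int.card_Icc] at h5
        have h6 := E.hH
        exact_mod_cast (show ((lev k H y).card : ℤ) ≤ 2 * H + 1 by omega)
      rcases Nat.eq_zero_or_pos (lev k H y).card with e | e
      · simp [e]
      refine (Real.log_le_log (by exact_mod_cast e) h4).trans ?_
      rw [Real.log_pow]
      exact mul_le_of_le_one_right (Nat.cast_nonneg _) (by linarith [Real.log_two_lt_d9])
    rw [sum_mul, sum_mul]
    refine (sum_le_sum fun l _ => E.two1 hx (hD1 l)).trans ?_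
    rw [sum_add_distrib, ← mul_sum]
    have h4 := mul_le_mul_of_nonneg_left h1 (show 0 ≤ K ^ 3 * N ^ 3 * Y by positivity)
    have h5 := mul_le_mul_of_nonneg_left (show 1 + (1 + K) ≤ K ^ 2 by nlinarith)
      (show 0 ≤ K ^ 6 * N ^ 6 * Y ^ 2 * (lev k H x).card by positivity)
    have h6 := h2.trans (mul_le_mul_of_nonneg_left h3 (by positivity))
    linarith
  · have h1 : ((trg k W H x y).card : ℝ) ≤ ∑ l ∈ lev k H y, (pr (U l) (D l) W : ℝ) := by
      simp only [hU, hD]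
      exact_mod_cast piv_trg E.hH x y
    have h2 : ∑ l ∈ lev k H y, ((U l).card : ℝ) ≤ (edg k W H y).card := by
      rw [card_eq_sum_card_fiberwise (f := fun p : ℤ × ℤ => p.1 - p.2) (t := lev k H y)
        fun p hp => edg_sub E.hH hp, Nat.cast_sum]
      refine sum_le_sum fun l _ => ?_
      rw [hU]
      exact_mod_cast card_image_le
    have h3 := Real.sum_sqrt_mul_sqrt_le (lev k H y) (f := fun l => ((U l).card : ℝ))
      (g := fun l => ∑ s ∈ D l, ∑ b ∈ D l, k (s - b) ^ 2) (fun _ => Nat.cast_nonneg _)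
      fun _ => by positivity
    refine (mul_le_mul_of_nonneg_left h1 (sq_nonneg V)).trans ?_
    rw [mul_sum]
    refine (sum_le_sum fun l _ => E.up (U l) (fun t ht => ?_) (D l)
      fun m hm => (mem_lev.1 (hD1 l hm)).1).trans ?_
    · rw [hU] at ht
      obtain ⟨p, hp, rfl⟩ := mem_image.1 ht
      exact (mem_edg.1 (mem_filter.1 hp).1).1.1.1
    simp only [mul_assoc (K * N)]
    rw [sum_add_distrib, ← mul_sum, ← mul_sum]
    have h4 := h3.trans (mul_le_mul_of_nonneg_right (Real.sqrt_le_sqrt h2) (Real.sqrt_nonneg _))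
    gcongr

end Pool.Agent.Lib.MP_ecd12e_nt.DH
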