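import Pool.Agent.Lib.MP_ecd12e_nt.DH2.Comb1
import Pool.Agent.Lib.MP_ecd12e_nt.DH2.Comb2

/-!
The algebra of the second level.
-/

set_option autoImplicit false

namespace Pool.Agent.Lib.MP_ecd12e_nt.DH

open Finset Real MeasureTheory
open Pool.Agent.Lib.MP_ecd12e_nt.Bar (ei)
open Pool.Agent.Lib.MP_ecd12e_nt.Sch

variable {k : ℤ → ℝ} {W : Finset ℤ} {H : ℤ} {L : ℕ} {K N V Y Z : ℝ}

lemma alg2_pow {K c X : ℝ} (hK : 10 ^ 9 ≤ K) (hc : c ≤ 10 ^ 27) {n : ℕ} (hn : n ≤ 37)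
    (hX : 0 ≤ X) : c * K ^ n * X ≤ K ^ 40 * X := by
  have h1 : 1 ≤ K := le_trans (by norm_num) hK
  have h2 : c ≤ K ^ 3 := hc.trans (le_trans (by norm_num) (pow_le_pow_left₀ (by norm_num) hK 3))
  refine mul_le_mul_of_nonneg_right ?_ hX
  calc _ ≤ K ^ 3 * K ^ n := mul_le_mul_of_nonneg_right h2 (by positivity)
    _ = K ^ (3 + n) := (pow_add _ _ _).symm
    _ ≤ _ := pow_le_pow_right₀ h1 (by omega)

lemma alg2_one {K J N R V Y l x : ℝ} (hK : 0 < K) (hJ : 0 ≤ J) (hN : 0 < N) (hR : 0 ≤ R)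
    (hl : 0 < l) (hx : 0 ≤ x) (hV : V ^ 2 = 8 * N * l)
    (h1 : l * R * x ^ 5 ≤ 2 * K ^ 3 * J * N ^ 3 * Y) (h2 : l * R * V ^ 2 ≤ 8 * K ^ 3 * J * N ^ 2 * x) :
    R ^ 6 * V ^ 22 ≤ 2 ^ 34 * K ^ 18 * (J ^ 6 * N ^ 19 * Y) := by
  have h3 := pow_le_pow_left₀ (by positivity) h2 5
  calc _ = (V ^ 2) ^ 6 * (R ^ 6 * (V ^ 2) ^ 5) := by ring
    _ = (8 * N * l) ^ 6 * (R ^ 6 * (V ^ 2) ^ 5) := by rw [← hV]
    _ = (8 * N) ^ 6 * (l * R) * (l * R * V ^ 2) ^ 5 := by ring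
    _ ≤ (8 * N) ^ 6 * (l * R) * (8 * K ^ 3 * J * N ^ 2 * x) ^ 5 :=
        mul_le_mul_of_nonneg_left h3 (by positivity)
    _ = (8 * N) ^ 6 * (8 * K ^ 3 * J * N ^ 2) ^ 5 * (l * R * x ^ 5) := by ring
    _ ≤ (8 * N) ^ 6 * (8 * K ^ 3 * J * N ^ 2) ^ 5 * (2 * K ^ 3 * J * N ^ 3 * Y) :=
        mul_le_mul_of_nonneg_left h1 (by positivity)
    _ = _ := by ring

lemma alg2_two {K J N R V Y Z l x P : ℝ} (hK : 0 < K) (hJ : 0 ≤ J) (hN : 0 < N) (hR : 0 < R)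
    (hl : 0 < l) (hx : 0 ≤ x) (hP : 0 ≤ P) (hV : V ^ 2 = 8 * N * l)
    (h1 : V ^ 4 * P ^ 2 * x ^ 8 ≤ 4 * K ^ 6 * N ^ 7 * R * Y * Z)
    (h2 : V ^ 2 * l * P ≤ 8 * K ^ 2 * R * N ^ 2 * x) (h3 : l * R ^ 2 ≤ K ^ 2 * J * x * P) :
    R ^ 6 * V ^ 26 ≤ 2 ^ 35 * K ^ 22 * (J ^ 5 * N ^ 21 * Y * Z) := by
  have h4 := pow_le_pow_left₀ (by positivity) h2 3
  have h5 := pow_le_pow_left₀ (by positivity) h3 5
  refine le_of_mul_le_mul_right ?_ (pow_pos hR 4)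
  calc _ = (V ^ 2) ^ 8 * (R ^ 10 * V ^ 10) := by ring
    _ = (8 * N * l) ^ 8 * (R ^ 10 * V ^ 10) := by rw [← hV]
    _ = (8 * N) ^ 8 * l ^ 3 * (V ^ 5) ^ 2 * (l * R ^ 2) ^ 5 := by ring
    _ ≤ (8 * N) ^ 8 * l ^ 3 * (V ^ 5) ^ 2 * (K ^ 2 * J * x * P) ^ 5 :=
        mul_le_mul_of_nonneg_left h5 (by positivity)
    _ = (8 * N) ^ 8 * (K ^ 2 * J * x) ^ 5 * (V ^ 2 * P) ^ 2 * (V ^ 2 * l * P) ^ 3 := by ring
    _ ≤ (8 * N) ^ 8 * (K ^ 2 * J * x) ^ 5 * (V ^ 2 * P) ^ 2 * (8 * K ^ 2 * R * N ^ 2 * x) ^ 3 :=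
        mul_le_mul_of_nonneg_left h4 (by positivity)
    _ = (8 * N) ^ 8 * (K ^ 2 * J) ^ 5 * (8 * K ^ 2 * R * N ^ 2) ^ 3 * (V ^ 4 * P ^ 2 * x ^ 8) := by
        ring
    _ ≤ (8 * N) ^ 8 * (K ^ 2 * J) ^ 5 * (8 * K ^ 2 * R * N ^ 2) ^ 3 *
        (4 * K ^ 6 * N ^ 7 * R * Y * Z) := mul_le_mul_of_nonneg_left h1 (by positivity)
    _ = _ := by ring

lemma alg2_three {K J N R V Y Z l x y P S A Q D : ℝ} (hK : 0 < K) (hJ : 0 ≤ J) (hN : 0 < N)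
    (hR : 0 < R) (hl : 0 < l) (hx : l ≤ x) (hy : 0 ≤ y) (hS : 0 ≤ S) (hSA : S ≤ A) (hQ : 0 ≤ Q)
    (hP : 0 ≤ P) (hZ : 0 ≤ Z) (hA : 0 < A) (hV : V ^ 2 = 8 * N * l)
    (h1 : V ^ 2 * l * P ^ 2 ≤ 8 * K ^ 2 * R * N * y * (√S * √Q))
    (h2 : Q * x ^ 8 * y ^ 2 ≤ K ^ 8 * N ^ 6 * Y ^ 2 * D) (h3 : D * x ^ 8 ≤ K * N ^ 4 * Z)
    (h4 : l * A ≤ K * x * P) (h5 : R ^ 2 ≤ K * J * A) :
    R ^ 4 * V ^ 40 ≤ 2 ^ 60 * K ^ 20 * (J ^ 3 * N ^ 30 * Y ^ 2 * Z) := by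
  have hx0 : 0 < x := hl.trans_le hx
  have a1 := pow_le_pow_left₀ (by positivity) h1 2
  have a2 := pow_le_pow_left₀ (by positivity) h4 4
  have a3 := pow_le_pow_left₀ (by positivity) h5 3
  have a4 := pow_le_pow_left₀ hl.le hx 12
  rw [mul_pow _ (√S * √Q), mul_pow √S, Real.sq_sqrt hS, Real.sq_sqrt hQ] at a1
  have a5 : V ^ 4 * l ^ 18 * A ^ 3 ≤ 64 * K ^ 17 * R ^ 2 * N ^ 12 * Y ^ 2 * Z := by
    refine le_of_mul_le_mul_right ?_ hA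
    calc _ = (V ^ 2 * l) ^ 2 * l ^ 12 * (l * A) ^ 4 := by ring
      _ ≤ (V ^ 2 * l) ^ 2 * x ^ 12 * (K * x * P) ^ 4 := by gcongr
      _ = K ^ 4 * x ^ 16 * (V ^ 2 * l * P ^ 2) ^ 2 := by ring
      _ ≤ K ^ 4 * x ^ 16 * ((8 * K ^ 2 * R * N * y) ^ 2 * (S * Q)) :=
          mul_le_mul_of_nonneg_left a1 (by positivity)
      _ = 64 * K ^ 8 * R ^ 2 * N ^ 2 * S * x ^ 8 * (Q * x ^ 8 * y ^ 2) := by ring
      _ ≤ 64 * K ^ 8 * R ^ 2 * N ^ 2 * S * x ^ 8 * (K ^ 8 * N ^ 6 * Y ^ 2 * D) :=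
          mul_le_mul_of_nonneg_left h2 (by positivity)
      _ = 64 * K ^ 16 * R ^ 2 * N ^ 8 * Y ^ 2 * S * (D * x ^ 8) := by ring
      _ ≤ 64 * K ^ 16 * R ^ 2 * N ^ 8 * Y ^ 2 * A * (K * N ^ 4 * Z) :=
          (mul_le_mul_of_nonneg_left h3 (by positivity)).trans (by gcongr)
      _ = _ := by ring
  refine le_of_mul_le_mul_right ?_ (pow_pos hR 2)
  calc _ = (V ^ 2) ^ 18 * (V ^ 2) ^ 2 * (R ^ 2) ^ 3 := by ring
    _ = (8 * N * l) ^ 18 * (V ^ 2) ^ 2 * (R ^ 2) ^ 3 := by rw [← hV]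
    _ ≤ (8 * N * l) ^ 18 * (V ^ 2) ^ 2 * (K * J * A) ^ 3 :=
        mul_le_mul_of_nonneg_left a3 (by positivity)
    _ = (8 * N) ^ 18 * (K * J) ^ 3 * (V ^ 4 * l ^ 18 * A ^ 3) := by ring
    _ ≤ (8 * N) ^ 18 * (K * J) ^ 3 * (64 * K ^ 17 * R ^ 2 * N ^ 12 * Y ^ 2 * Z) :=
        mul_le_mul_of_nonneg_left a5 (by positivity)
    _ = _ := by ring

theorem comb (E : Env k W H L K N V Y Z) {J : ℝ} (hJ : 0 ≤ J)
    (hA : (W.card : ℝ) ^ 2 ≤ K * J * (winA W H).card) :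
    W.card * V ^ 2 ≤ K ^ 40 * (J * N ^ 2) ∨ V ^ 12 ≤ K ^ 40 * N ^ 9 ∨
    ((∃ t, V ^ 2 / (8 * N) ≤ k t) ∧
      ((W.card : ℝ) ^ 6 * V ^ 22 ≤ K ^ 40 * (J ^ 6 * N ^ 19 * Y) ∨
        (W.card : ℝ) ^ 6 * V ^ 26 ≤ K ^ 40 * (J ^ 5 * N ^ 21 * Y * Z) ∨
        (W.card : ℝ) ^ 4 * V ^ 40 ≤ K ^ 40 * (J ^ 3 * N ^ 30 * Y ^ 2 * Z))) := by
  have hN := E.hN
  have hV := E.hV
  have hY := E.hY
  have hZ := E.hZ
  have hK9 := E.hK
  have hK : 0 < K := lt_of_lt_of_le (by norm_num) hK9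
  have hR0 : (0 : ℝ) ≤ W.card := Nat.cast_nonneg _
  rcases hR0.eq_or_lt with h0 | hR
  · left
    rw [← h0, zero_mul]
    exact mul_nonneg (pow_pos hK 40).le (mul_nonneg hJ (sq_nonneg N))
  have hA0 : (0 : ℝ) < (winA W H).card := by
    refine (Nat.cast_nonneg _).lt_of_ne fun e => ?_
    rw [← e, mul_zero] at hA
    exact absurd hA (not_le.2 (pow_pos hR 2))
  have hl0 : 0 < V ^ 2 / (8 * N) := by positivity
  have hl1 : V ^ 2 = 8 * N * (V ^ 2 / (8 * N)) := by field_simp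
  rcases comb1 E with h1 | ⟨x, hx, h1, h2⟩
  · left
    refine le_trans ?_ (alg2_pow (c := 4) (n := 2) hK9 (by norm_num) (by norm_num)
      (mul_nonneg hJ (sq_nonneg N)))
    refine le_of_mul_le_mul_right ?_ hR
    have a1 := mul_le_mul_of_nonneg_left hA (sq_nonneg V)
    have a2 := mul_le_mul_of_nonneg_left h1 (mul_nonneg hK.le hJ)
    linarith
  right
  have hx0 : 0 < x := hl0.trans_le hx
  have h6 := edg_six E hx0.le
  have hup := edg_up E hx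
  have h8 := E.lev_eight hx0.le
  have hex : ∃ t, V ^ 2 / (8 * N) ≤ k t := by
    rcases (edg k W H x).eq_empty_or_nonempty with e | ⟨p, hp⟩
    · rw [e, card_empty, Nat.cast_zero, mul_zero] at h1
      exact absurd h1 (not_le.2 (mul_pos hl0 hA0))
    · exact ⟨_, hx.trans (mem_edg.1 hp).2⟩
  have hc2 := fun y (hy : V ^ 2 / (8 * N) ≤ y) => comb2 E hx hy
  have hsub : ∀ y, ((edg k W H y).card : ℝ) ≤ (winA W H).card := fun y =>
    Nat.cast_le.2 (card_le_card fun p hp => by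
      rw [edg, mem_filter] at hp
      exact hp.1)
  have hP0 : (0 : ℝ) ≤ (edg k W H x).card := Nat.cast_nonneg _
  have hD0 : (0 : ℝ) ≤ (lev k H x).card := Nat.cast_nonneg _
  generalize V ^ 2 / (8 * N) = l at *
  generalize ((winA W H).card : ℝ) = A at *
  generalize ((edg k W H x).card : ℝ) = P at *
  generalize ((lev k H x).card : ℝ) = D at *
  generalize (W.card : ℝ) = R at *
  have a1 : l * x ^ 5 * A ≤ K ^ 2 * N ^ 3 * (A + R * Y) := by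
    have b1 := mul_le_mul_of_nonneg_right h1 (pow_pos hx0 5).le
    have b2 := mul_le_mul_of_nonneg_left h6 hK.le
    linarith
  have hKN : 0 ≤ K ^ 2 * N ^ 3 := by positivity
  rcases le_total (R * Y) A with a2 | a2
  · left
    refine le_trans ?_ (alg2_pow (c := 2 ^ 19) (n := 2) hK9 (by norm_num) (by norm_num)
      (pow_pos hN 9).le)
    have b1 : l * x ^ 5 ≤ 2 * (K ^ 2 * N ^ 3) := by
      refine le_of_mul_le_mul_right ?_ hA0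
      linarith [mul_le_mul_of_nonneg_left a2 hKN]
    have b2 := mul_le_mul_of_nonneg_left (pow_le_pow_left₀ hl0.le hx 5) hl0.le
    calc _ = (V ^ 2) ^ 6 := by ring
      _ = (8 * N * l) ^ 6 := by rw [← hl1]
      _ = (8 * N) ^ 6 * (l * l ^ 5) := by ring
      _ ≤ (8 * N) ^ 6 * (2 * (K ^ 2 * N ^ 3)) :=
          mul_le_mul_of_nonneg_left (b2.trans b1) (by positivity)
      _ = _ := by ring
  right
  refine ⟨hex, ?_⟩
  have hKJ : 0 ≤ K * J := mul_nonneg hK.le hJ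
  have a3 : l * R ^ 2 ≤ K ^ 2 * J * x * P := by
    have b1 := mul_le_mul_of_nonneg_left hA hl0.le
    have b2 := mul_le_mul_of_nonneg_left h1 hKJ
    linarith
  rcases le_or_gt (V ^ 2 * P) (8 * K * N ^ 2 * R) with a4 | a4
  · left
    refine le_trans (alg2_one hK hJ hN hR0 hl0 hx0.le hl1 ?_ ?_)
      (alg2_pow hK9 (by norm_num) (by norm_num) (by positivity))
    · refine le_of_mul_le_mul_right ?_ hR
      have b1 := mul_le_mul_of_nonneg_left hA (show 0 ≤ l * x ^ 5 by positivity)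
      have b2 := mul_le_mul_of_nonneg_left a1 hKJ
      have b3 := mul_le_mul_of_nonneg_left a2 (mul_nonneg hKJ hKN)
      linarith
    · refine le_of_mul_le_mul_right ?_ hR
      have b1 := mul_le_mul_of_nonneg_left a3 (sq_nonneg V)
      have b2 := mul_le_mul_of_nonneg_left a4 (show 0 ≤ K ^ 2 * J * x by positivity)
      linarith
  right
  obtain ⟨y, hy, a5, a6⟩ := h2.resolve_left (not_le.2 a4)
  have hy0 : 0 < y := hl0.trans_le hy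
  obtain ⟨Q, hQ, a7, a8⟩ := hc2 y hy
  have hSA := hsub y
  have hS0 : (0 : ℝ) ≤ (edg k W H y).card := Nat.cast_nonneg _
  generalize ((edg k W H y).card : ℝ) = S at *
  generalize ((trg k W H x y).card : ℝ) = G at *
  have hP : 0 < P := (mul_pos_iff_of_pos_left (pow_pos hV 2)).1 (lt_trans (by positivity) a4)
  have a9 : V ^ 2 * l * P ^ 2 ≤ 4 * K * y * R * (K * N ^ 2 * S + K * N * √S * √Q) := by
    have b1 := mul_le_mul_of_nonneg_left a6 (sq_nonneg V)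
    have b2 := mul_le_mul_of_nonneg_left a8 (show 0 ≤ 4 * K * y * R by positivity)
    linarith
  have hc : 0 ≤ 4 * K * y * R := by positivity
  rcases le_total (K * N * √S * √Q) (K * N ^ 2 * S) with a10 | a10
  · left
    refine le_trans (alg2_two hK hJ hN hR hl0 hx0.le hP0 hl1 ?_ ?_ a3)
      (alg2_pow hK9 (by norm_num) (by norm_num) (by positivity))
    · have b1 : V ^ 2 * P ≤ 2 * (K * N * √R * √(K ^ 3 * N * D * Y)) := by
        have : 0 ≤ K * N ^ 2 * R := by positivity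
        linarith
      have b2 := pow_le_pow_left₀ (by positivity) b1 2
      rw [mul_pow 2, mul_pow _ √(K ^ 3 * N * D * Y), mul_pow _ √R, Real.sq_sqrt hR0,
        Real.sq_sqrt (by positivity)] at b2
      have b3 := mul_le_mul_of_nonneg_right b2 (pow_pos hx0 8).le
      have b4 := mul_le_mul_of_nonneg_left h8 (show 0 ≤ 4 * K ^ 5 * N ^ 3 * R * Y by positivity)
      linarith
    · refine le_of_mul_le_mul_right ?_ hP
      have b1 := mul_le_mul_of_nonneg_left a10 hc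
      have b2 := mul_le_mul_of_nonneg_left a5 (show 0 ≤ 8 * K ^ 2 * R * N ^ 2 by positivity)
      linarith
  · right
    refine le_trans (alg2_three hK hJ hN hR hl0 hx hy0.le hS0 hSA hQ hP0 hZ hA0 hl1 ?_ a7 h8 h1 hA)
      (alg2_pow hK9 (by norm_num) (by norm_num) (by positivity))
    have b1 := mul_le_mul_of_nonneg_left a10 hc
    linarith

end Pool.Agent.Lib.MP_ecd12e_nt.DH
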