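import Pool.Agent.Lib.MP_ecd12e_nt.DH2.Defs

/-!
The levels and the triangles.
-/

set_option autoImplicit false

namespace Pool.Agent.Lib.MP_ecd12e_nt.DH

open Finset Real MeasureTheory
open Pool.Agent.Lib.MP_ecd12e_nt.Bar (ei)
open Pool.Agent.Lib.MP_ecd12e_nt.Sch

variable {k : ℤ → ℝ} {W : Finset ℤ} {H : ℤ} {L : ℕ} {K N V Y Z : ℝ}

/-- One level of the grid carries a fixed share of the sum. -/
lemma comb1_level {ι : Type} (A : Finset ι) (f : ι → ℝ) {l : ℝ} (hl : 0 < l)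
    (hA : (0 : ℝ) < A.card) (L : ℕ) (hf : ∀ p ∈ A, f p ≤ 2 ^ L * l)
    (h : 2 * l * A.card ≤ ∑ p ∈ A, f p) :
    ∃ j ∈ range L, l * A.card ≤ L * (2 ^ j * l * (A.filter fun p => 2 ^ j * l ≤ f p).card) ∧
      ∀ i ∈ range L, 2 ^ i * l * ((A.filter fun p => 2 ^ i * l ≤ f p).card : ℝ) ≤
        2 ^ j * l * (A.filter fun p => 2 ^ j * l ≤ f p).card := by
  have h1 : ∑ p ∈ A, f p ≤ l * A.card +
      ∑ j ∈ range L, 2 ^ j * l * (A.filter fun p => 2 ^ j * l ≤ f p).card := by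
    refine (sum_le_sum fun p hp => (min_eq_left (hf p hp)).ge.trans (win_min (f p) hl L)).trans
      (le_of_eq ?_)
    rw [sum_add_distrib, sum_const, nsmul_eq_mul, mul_comm, sum_comm]
    refine congrArg _ (sum_congr rfl fun j _ => ?_)
    rw [← sum_filter, sum_const, nsmul_eq_mul, mul_comm]
  rcases (range L).eq_empty_or_nonempty with e | e
  · rw [e, sum_empty] at h1
    nlinarith [mul_pos hl hA]
  obtain ⟨j, hj0, hj⟩ := exists_max_image (range L)
    (fun j => 2 ^ j * l * ((A.filter fun p => 2 ^ j * l ≤ f p).card : ℝ)) e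
  have h3 := sum_le_card_nsmul _ _ _ hj
  rw [card_range, nsmul_eq_mul] at h3
  exact ⟨j, hj0, by linarith, hj⟩

lemma comb1_img (W : Finset ℤ) (H : ℤ) : ∀ t ∈ W, t / H ∈ W.image fun t => t / H :=
  fun _ ht => mem_image_of_mem _ ht

lemma comb1_cardA (W : Finset ℤ) (H : ℤ) : ((winA W H).card : ℝ) =
    ∑ i ∈ W.image fun t => t / H, ((W.filter fun t => t / H = i).card : ℝ) ^ 2 := by
  simpa [sq] using win_sum W H (comb1_img W H) fun _ _ => 1

lemma comb1_cardW (W : Finset ℤ) (H : ℤ) : (W.card : ℝ) =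
    ∑ i ∈ W.image fun t => t / H, ((W.filter fun t => t / H = i).card : ℝ) := by
  rw [card_eq_sum_card_fiberwise (comb1_img W H), Nat.cast_sum]

open Classical in
/-- The neighbours of `t` at level `x`. -/
noncomputable def nbr (k : ℤ → ℝ) (W : Finset ℤ) (H : ℤ) (x : ℝ) (t : ℤ) : Finset ℤ :=
  W.filter fun s => (t, s) ∈ edg k W H x

lemma comb1_deg (k : ℤ → ℝ) (W : Finset ℤ) (H : ℤ) (x : ℝ) :
    ((edg k W H x).card : ℝ) = ∑ t ∈ W, ((nbr k W H x t).card : ℝ) := by
  classical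
  rw [← Nat.cast_sum, card_eq_sum_card_fiberwise (f := Prod.fst) (t := W)
    fun p hp => (mem_edg.1 hp).1.1.1]
  congr 1
  refine sum_congr rfl fun t _ => ?_
  refine card_bij (fun p _ => p.2) (fun p hp => ?_) (fun p hp q hq e => ?_) fun s hs => ?_
  · obtain ⟨h1, h2⟩ := mem_filter.1 hp
    rw [nbr, mem_filter, ← h2]
    exact ⟨(mem_edg.1 h1).1.1.2, h1⟩
  · exact Prod.ext ((mem_filter.1 hp).2.trans (mem_filter.1 hq).2.symm) e
  · rw [nbr, mem_filter] at hs
    exact ⟨(t, s), mem_filter.2 ⟨hs.2, rfl⟩, rfl⟩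

theorem comb1 (E : Env k W H L K N V Y Z) :
    V ^ 2 * (winA W H).card ≤ 4 * K * N ^ 2 * W.card ∨
    ∃ x : ℝ, V ^ 2 / (8 * N) ≤ x ∧
      V ^ 2 / (8 * N) * (winA W H).card ≤ K * x * (edg k W H x).card ∧
      (V ^ 2 * (edg k W H x).card ≤ 8 * K * N ^ 2 * W.card ∨
        ∃ y : ℝ, V ^ 2 / (8 * N) ≤ y ∧ y * (edg k W H y).card ≤ x * (edg k W H x).card ∧
          V ^ 2 / (8 * N) * ((edg k W H x).card : ℝ) ^ 2 ≤
            4 * K * y * W.card * (trg k W H x y).card) := by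
  classical
  have hN := E.hN
  have hV := E.hV
  have hK : 0 < K := lt_of_lt_of_le (by norm_num) E.hK
  have hH := E.hH
  obtain ⟨l, hl⟩ : ∃ l : ℝ, l = V ^ 2 / (8 * N) := ⟨_, rfl⟩
  have hl1 : V ^ 2 = 8 * N * l := by rw [hl]; field_simp
  have hl0 : 0 < l := by rw [hl]; positivity
  have hl2 : V ^ 2 / (2 * N) = 4 * l := by rw [hl]; ring
  have htop : ∀ t, k t ≤ 2 ^ L * l := hl ▸ E.top
  have hal := E.hal
  rw [hl2] at hal
  rw [← hl]
  clear hl hl2
  have hR0 : (0 : ℝ) ≤ W.card := Nat.cast_nonneg _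
  rcases le_or_gt (V ^ 2 * (winA W H).card) (4 * K * N ^ 2 * W.card) with h1 | h1
  · exact Or.inl h1
  right
  have hA3 : 4 * l * (winA W H).card - K * N * W.card ≤ ∑ p ∈ winA W H, k (p.1 - p.2) := by
    rw [comb1_cardA, comb1_cardW, win_sum W H (comb1_img W H) fun s s' => k (s - s'), mul_sum,
      mul_sum, ← sum_sub_distrib]
    exact sum_le_sum fun i _ => hal _ (filter_subset _ _) (H * i)
      fun t ht => win_mem hH (mem_filter.1 ht).2
  have h2 : K * N * W.card < 2 * l * (winA W H).card := by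
    refine lt_of_mul_lt_mul_left (a := 4 * N) ?_ (by positivity)
    rw [hl1] at h1
    linarith
  have hA0 : (0 : ℝ) < (winA W H).card := by
    have h3 : 0 ≤ K * N * W.card := by positivity
    exact (mul_pos_iff_of_pos_left (by positivity)).1 (h3.trans_lt h2)
  obtain ⟨j, -, hj1, hj2⟩ := comb1_level (winA W H) (fun p => k (p.1 - p.2)) hl0 hA0 L
    (fun p _ => htop _) (by linarith)
  have hlev : ∀ i : ℕ, l ≤ 2 ^ i * l := fun i => le_mul_of_one_le_left hl0.le (one_le_pow₀ one_le_two)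
  have hedg : ∀ z : ℝ, ((winA W H).filter fun p => z ≤ k (p.1 - p.2)) = edg k W H z :=
    fun z => by rw [edg]
  simp only [hedg] at hj1 hj2
  have hx := hlev j
  generalize 2 ^ j * l = x at hj1 hj2 hx
  have hx0 : 0 < x := hl0.trans_le hx
  have hP0 : (0 : ℝ) ≤ (edg k W H x).card := Nat.cast_nonneg _
  refine ⟨x, hx, hj1.trans ?_, ?_⟩
  · rw [mul_assoc]
    exact mul_le_mul_of_nonneg_right E.hL (by positivity)
  rcases le_or_gt (V ^ 2 * (edg k W H x).card) (8 * K * N ^ 2 * W.card) with h3 | h3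
  · exact Or.inl h3
  right
  have h4 : K * N * W.card < l * (edg k W H x).card := by
    refine lt_of_mul_lt_mul_left (a := 8 * N) ?_ (by positivity)
    rw [hl1] at h3
    linarith
  obtain ⟨G, hG⟩ : ∃ G : Finset ℤ, G = W.filter fun t => K * N ≤ 2 * l * (nbr k W H x t).card :=
    ⟨_, rfl⟩
  have hGW : (G.card : ℝ) ≤ W.card := by
    rw [hG]
    exact_mod_cast card_filter_le _ _
  have h5 : ((edg k W H x).card : ℝ) ≤ 2 * ∑ t ∈ G, ((nbr k W H x t).card : ℝ) := by
    have a1 := sum_filter_add_sum_filter_not W (fun t => K * N ≤ 2 * l * (nbr k W H x t).card)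
      fun t => ((nbr k W H x t).card : ℝ)
    rw [← comb1_deg, ← hG] at a1
    have a2 : 2 * l * ∑ t ∈ W.filter fun t => ¬K * N ≤ 2 * l * (nbr k W H x t).card,
        ((nbr k W H x t).card : ℝ) ≤ K * N * W.card := by
      rw [mul_sum]
      refine (sum_le_card_nsmul _ _ (K * N) fun t ht => (not_le.1 (mem_filter.1 ht).2).le).trans ?_
      rw [nsmul_eq_mul, mul_comm]
      exact mul_le_mul_of_nonneg_left (by exact_mod_cast card_filter_le _ _) (by positivity)
    refine le_of_mul_le_mul_left ?_ hl0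
    rw [← a1] at h4 ⊢
    linarith
  obtain ⟨B, hB⟩ : ∃ B : Finset ((_ : ℤ) × ℤ × ℤ),
      B = G.sigma fun t => nbr k W H x t ×ˢ nbr k W H x t := ⟨_, rfl⟩
  have hB1 : (B.card : ℝ) = ∑ t ∈ G, ((nbr k W H x t).card : ℝ) ^ 2 := by
    rw [hB, card_sigma]
    simp only [card_product, Nat.cast_sum, Nat.cast_mul, sq]
  have hB2 : ((edg k W H x).card : ℝ) ^ 2 ≤ 4 * (W.card * B.card) := by
    have a1 : (∑ t ∈ G, ((nbr k W H x t).card : ℝ)) ^ 2 ≤ G.card * B.card := by
      rw [hB1]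
      exact sq_sum_le_card_mul_sum_sq
    have a2 := mul_le_mul_of_nonneg_right hGW (Nat.cast_nonneg B.card)
    have a3 := pow_le_pow_left₀ hP0 h5 2
    rw [mul_pow] at a3
    linarith
  have hB0 : (0 : ℝ) < B.card := by
    have a1 : 0 ≤ K * N * W.card := by positivity
    have a2 : (0 : ℝ) < (edg k W H x).card := (mul_pos_iff_of_pos_left hl0).1 (a1.trans_lt h4)
    have a3 : (0 : ℝ) < W.card * B.card := by linarith [pow_pos a2 2]
    exact (Nat.cast_nonneg _).lt_of_ne fun e => by rw [← e, mul_zero] at a3; exact lt_irrefl _ a3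
  have hB3 : 2 * l * B.card ≤ ∑ q ∈ B, k (q.2.1 - q.2.2) := by
    rw [hB1, hB, sum_sigma, mul_sum]
    refine sum_le_sum fun t ht => ?_
    rw [sum_product]
    have a1 := hal (nbr k W H x t) (filter_subset _ _) (H * (t / H)) fun s hs =>
      win_mem hH (mem_edg.1 (mem_filter.1 hs).2).1.2.symm
    rw [hG] at ht
    have a2 := mul_le_mul_of_nonneg_right (mem_filter.1 ht).2 (Nat.cast_nonneg (nbr k W H x t).card)
    refine le_trans ?_ a1
    nlinarith
  obtain ⟨i, hi, hi1, -⟩ := comb1_level B (fun q => k (q.2.1 - q.2.2)) hl0 hB0 L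
    (fun p _ => htop _) hB3
  refine ⟨2 ^ i * l, hlev i, hj2 i hi, ?_⟩
  have hy := hlev i
  generalize 2 ^ i * l = y at hi1 hy
  have hy0 : 0 < y := hl0.trans_le hy
  have hT : ((B.filter fun q => y ≤ k (q.2.1 - q.2.2)).card : ℝ) ≤ (trg k W H x y).card := by
    refine Nat.cast_le.2 (card_le_card_of_injOn (fun q => (q.1, q.2)) (fun q hq => ?_)
      fun q _ r _ e => ?_)
    · obtain ⟨a1, a2⟩ := mem_filter.1 (mem_coe.1 hq)
      rw [hB, mem_sigma, mem_product, nbr, mem_filter, mem_filter, hG] at a1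
      rw [mem_coe, trg, mem_filter, mem_product, mem_product]
      exact ⟨⟨(mem_filter.1 a1.1).1, a1.2.1.1, a1.2.2.1⟩, a1.2.1.2, a1.2.2.2, a2⟩
    · obtain ⟨a, b⟩ := q
      obtain ⟨c, d⟩ := r
      obtain ⟨rfl, rfl⟩ := Prod.mk.inj e
      rfl
  have hT0 : (0 : ℝ) ≤ (trg k W H x y).card := Nat.cast_nonneg _
  have h6 : l * B.card ≤ K * (y * (trg k W H x y).card) :=
    hi1.trans (mul_le_mul E.hL (mul_le_mul_of_nonneg_left hT hy0.le) (by positivity) hK.le)
  calc _ ≤ l * (4 * (W.card * B.card)) := mul_le_mul_of_nonneg_left hB2 hl0.le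
    _ = 4 * W.card * (l * B.card) := by ring
    _ ≤ 4 * W.card * (K * (y * (trg k W H x y).card)) :=
        mul_le_mul_of_nonneg_left h6 (by positivity)
    _ = _ := by ring

theorem edg_six (E : Env k W H L K N V Y Z) {x : ℝ} (hx : 0 ≤ x) :
    (edg k W H x).card * x ^ 6 ≤ K * N ^ 3 * ((winA W H).card + W.card * Y) := by
  classical
  have hH := E.hH
  have hY := E.hY
  have h1 : (edg k W H x).card * x ^ 6 ≤ ∑ p ∈ winA W H, k (p.1 - p.2) ^ 6 := by
    rw [← nsmul_eq_mul]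
    refine (card_nsmul_le_sum (edg k W H x) (fun p => k (p.1 - p.2) ^ 6) _ fun p hp =>
      pow_le_pow_left₀ hx (mem_edg.1 hp).2 6).trans ?_
    exact sum_le_sum_of_subset_of_nonneg (filter_subset _ _) fun p _ _ => pow_nonneg (E.nn _) 6
  refine h1.trans ?_
  rw [comb1_cardA, comb1_cardW, win_sum W H (comb1_img W H) fun s s' => k (s - s') ^ 6, sum_mul,
    ← sum_add_distrib, mul_sum]
  refine sum_le_sum fun i _ => ?_
  have h2 : ∀ t ∈ W.filter fun t => t / H = i, H * i ≤ t ∧ t ≤ H * i + 2 * H := fun t ht => by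
    have := win_mem hH (mem_filter.1 ht).2
    omega
  refine (E.six _ _ (H * i) h2 h2).trans_eq ?_
  rw [mul_assoc, Real.mul_self_sqrt (by positivity)]

theorem edg_up (E : Env k W H L K N V Y Z) {x : ℝ} (hx : V ^ 2 / (8 * N) ≤ x) :
    V ^ 2 * (edg k W H x).card ≤
      K * N ^ 2 * W.card + K * N * √(W.card : ℝ) * √(K ^ 3 * N * (lev k H x).card * Y) := by
  classical
  have hK : 0 < K := lt_of_lt_of_le (by norm_num) E.hK
  have hN := E.hN
  have hD : ∀ l ∈ lev k H x, -H ≤ l ∧ l ≤ H := fun l hl => (mem_lev.1 hl).1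
  have h1 : ((edg k W H x).card : ℝ) ≤ pr W (lev k H x) W := by
    refine Nat.cast_le.2 (card_le_card_of_injOn (fun p => (p.2, p.1 - p.2)) (fun p hp => ?_)
      fun p _ q _ e => ?_)
    · have a1 := mem_edg.1 (mem_coe.1 hp)
      rw [mem_coe, mem_filter, mem_product]
      exact ⟨⟨a1.1.1.2, edg_sub E.hH (mem_coe.1 hp)⟩, by simpa using a1.1.1.1⟩
    · obtain ⟨a1, a2⟩ := Prod.mk.inj e
      exact Prod.ext (by omega) a1
  refine (mul_le_mul_of_nonneg_left h1 (sq_nonneg V)).trans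
    ((E.up W (Subset.refl _) _ hD).trans (add_le_add le_rfl ?_))
  refine mul_le_mul_of_nonneg_left (Real.sqrt_le_sqrt ((E.two _ hD).trans ?_)) (by positivity)
  have h2 := mul_le_mul_of_nonneg_left (E.lev_card hx)
    (show 0 ≤ K * N * (lev k H x).card by positivity)
  linarith

end Pool.Agent.Lib.MP_ecd12e_nt.DH
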