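import Pool.Agent.Lib.MP_ecd12e_nt.DH.Kr

/-!
The sixth moment of the dual sum over the differences of two sets.
-/

set_option autoImplicit false

namespace Pool.Agent.Lib.MP_ecd12e_nt.DH2

open Finset Real
open Pool.Agent.Lib.MP_ecd12e_nt.Bar (ei)
open Pool.Agent.Lib.MP_ecd12e_nt.Sch Pool.Agent.Lib.MP_ecd12e_nt.DH

lemma six_swap (A B : Finset ℤ) (J : Finset ℕ) (c : ℕ → ℂ) {D : ℝ} (hc : ∀ n, ‖c n‖ ≤ D) :
    ∑ t ∈ A, ∑ s ∈ B, ‖dp J c ((t - s : ℤ) : ℝ)‖ ^ 2 ≤ D ^ 2 * (√(ds A J) * √(ds B J)) := by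
  have h := swap_key A B J c (fun t n => ei (t * Real.log n)) fun t n => ei (-(t * Real.log n))
  have h1 : ∀ (t t' : ℤ) (n : ℕ), ei (((t - t' : ℤ) : ℝ) * Real.log n) =
      ei (t * Real.log n) * ei (-(t' * Real.log n)) := fun t t' n => by
    rw [← Bar.ei_add]
    congr 1
    push_cast
    ring
  have h2 : ∀ (W : Finset ℤ) (n n' : ℕ),
      ∑ t ∈ W, ei (t * Real.log n) * (starRingEnd ℂ) (ei (t * Real.log n')) =
        rr W (Real.log n - Real.log n') := fun W n n' => sum_congr rfl fun t _ => by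
    rw [Bar.conj_ei, ← Bar.ei_add]
    congr 1
    ring
  simp only [dp, h1]
  refine h.trans (le_trans ?_ (mul_le_mul_of_nonneg_left (swap_cs J J _ _) (sq_nonneg D)))
  simp only [mul_sum]
  refine sum_le_sum fun n _ => sum_le_sum fun n' _ => ?_
  rw [swap_conj, h2, h2, sq D]
  exact mul_le_mul_of_nonneg_right
    (mul_le_mul (hc n) (hc n') (norm_nonneg _) ((norm_nonneg _).trans (hc n))) (by positivity)

/-- The double zeta sum only depends on the diameter. -/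
lemma six_boot {T P H Y L : ℝ} (h : Loss T P) (hH : 1 ≤ H) (hY : H ^ 2 ≤ Y ^ 3) (hYT : Y ≤ T ^ 2)
    (hL : 0 < L) (hLY : L ≤ Y) {J : Finset ℕ} (hJ : InI J L 4) {A : Finset ℤ} {a : ℤ}
    (hA : ∀ t ∈ A, a ≤ t ∧ ((t - a : ℤ) : ℝ) ≤ H) :
    ds A J ≤ 672 * P ^ 4 * L * ((A.card : ℝ) ^ 2 + A.card * Y) := by
  have hi : Function.Injective fun t : ℤ => t - a := fun x y e => by simpa using e
  have h1 := dsum_boot h hH hY hYT hL hLY hJ (W := A.image fun t => t - a) fun t ht => by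
    obtain ⟨s, hs, rfl⟩ := mem_image.1 ht
    exact ⟨sub_nonneg.2 (hA s hs).1, (hA s hs).2⟩
  rw [card_image_of_injective _ hi] at h1
  refine le_of_eq_of_le (sum_congr rfl fun n _ => sum_congr rfl fun n' _ => ?_) h1
  generalize Real.log n - Real.log n' = x
  have e : rr A x = ei (a * x) * rr (A.image fun t => t - a) x := by
    rw [rr, rr, sum_image hi.injOn, mul_sum]
    refine sum_congr rfl fun t _ => ?_
    rw [← Bar.ei_add]
    congr 1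
    push_cast
    ring
  rw [e, norm_mul, Bar.norm_ei, one_mul]

theorem kr_six {w : ℝ → ℝ} (h : Sm w) :
    ∃ C : ℝ, 0 ≤ C ∧ ∀ (N M : ℕ) (T P H Y : ℝ) (A B : Finset ℤ) (a b : ℤ), 1 ≤ N → 1 ≤ M →
      Loss T P → (M : ℝ) ≤ T → 2 * (M : ℝ) ^ 3 ≤ Y → Y ≤ T ^ 2 → 1 ≤ H → H ^ 2 ≤ Y ^ 3 →
      (∀ t ∈ A, a ≤ t ∧ ((t - a : ℤ) : ℝ) ≤ H) → (∀ t ∈ B, b ≤ t ∧ ((t - b : ℤ) : ℝ) ≤ H) →
      ∑ t ∈ A, ∑ s ∈ B, ‖kr w N M (t - s)‖ ^ 6 ≤ C * P ^ 16 * ((N : ℝ) ^ 3 *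
        (√((A.card : ℝ) ^ 2 + A.card * Y) * √((B.card : ℝ) ^ 2 + B.card * Y))) := by
  obtain ⟨C, hC, hm⟩ := kr_mom h
  refine ⟨4032 * C ^ 6, by positivity,
    fun N M T P H Y A B a b hN hM hL hMT hMY hYT hH hHY hA hB => ?_⟩
  have hP := hL.one_le
  have hT := hL.hT
  have hY : 0 ≤ Y := le_trans (by positivity) hMY
  obtain ⟨x, hx⟩ : ∃ x, x = (A.card : ℝ) ^ 2 + A.card * Y := ⟨_, rfl⟩
  obtain ⟨y, hy⟩ : ∃ y, y = (B.card : ℝ) ^ 2 + B.card * Y := ⟨_, rfl⟩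
  rw [← hx, ← hy]
  have h1 := hm N M 6 T P (4032 * P ^ 10 * (√x * √y)) (ℤ × ℤ) (A ×ˢ B)
    (fun p => p.1 - p.2) hN hM (by norm_num) hL hMT (by positivity)
    (fun Q I d hQ hQM hI hd => by
      have hQ0 : 0 < Q := by linarith
      have e1 : Q ^ 3 ≤ (M : ℝ) ^ 3 := pow_le_pow_left₀ hQ0.le hQM 3
      have e2 : Q ^ 3 ≤ T ^ 4 := (pow_le_pow_left₀ hQ0.le (hQM.trans hMT) 3).trans
        (pow_le_pow_right₀ hT (by norm_num))
      have e3 : 0 < Q ^ 3 := pow_pos hQ0 3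
      obtain ⟨J, c, g1, g2, g3⟩ := dp_pow hQ0 hP hI hd (k := 3) (by norm_num)
        (hL.tau.mono (by rw [mul_pow]; linarith))
      have key : ∀ (L : ℝ) (K : Finset ℕ), 0 < L → L ≤ Y → InI K L 4 →
          ∑ t ∈ A, ∑ s ∈ B, ‖dp K c ((t - s : ℤ) : ℝ)‖ ^ 2 ≤
            (P ^ 3) ^ 2 * (672 * P ^ 4 * L * (√x * √y)) := fun L K h0 h1 h2 => by
        refine (six_swap A B K c g2).trans (mul_le_mul_of_nonneg_left ?_ (sq_nonneg _))
        have k1 := Real.sqrt_le_sqrt (six_boot hL hH hHY hYT h0 h1 h2 hA)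
        have k2 := Real.sqrt_le_sqrt (six_boot hL hH hHY hYT h0 h1 h2 hB)
        have k0 : 0 ≤ 672 * P ^ 4 * L := by positivity
        rw [Real.sqrt_mul k0, ← hx] at k1
        rw [Real.sqrt_mul k0, ← hy] at k2
        refine (mul_le_mul k1 k2 (Real.sqrt_nonneg _) (by positivity)).trans_eq ?_
        rw [mul_mul_mul_comm, Real.mul_self_sqrt k0]
      have k1 := key (Q ^ 3) (J.filter fun n => (n : ℝ) ≤ 4 * Q ^ 3) e3 (by linarith)
        fun n hn => ⟨(g1 n (mem_filter.1 hn).1).1, (mem_filter.1 hn).2⟩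
      have k2 := key (2 * Q ^ 3) (J.filter fun n => ¬(n : ℝ) ≤ 4 * Q ^ 3) (by linarith)
        (by linarith) fun n hn => ⟨by linarith [not_le.1 (mem_filter.1 hn).2],
          by linarith [(g1 n (mem_filter.1 hn).1).2]⟩
      have k3 : ∑ t ∈ A, ∑ s ∈ B, ‖dp I d ((t - s : ℤ) : ℝ)‖ ^ 6 ≤ ∑ t ∈ A, ∑ s ∈ B,
          (2 * ‖dp (J.filter fun n => (n : ℝ) ≤ 4 * Q ^ 3) c ((t - s : ℤ) : ℝ)‖ ^ 2 +
            2 * ‖dp (J.filter fun n => ¬(n : ℝ) ≤ 4 * Q ^ 3) c ((t - s : ℤ) : ℝ)‖ ^ 2) := by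
        refine sum_le_sum fun t _ => sum_le_sum fun s _ => ?_
        rw [show 6 = 3 * 2 from rfl, pow_mul, ← norm_pow, g3, dp,
          ← sum_filter_add_sum_filter_not J fun n : ℕ => (n : ℝ) ≤ 4 * Q ^ 3]
        refine (pow_le_pow_left₀ (norm_nonneg _) (norm_add_le _ _) 2).trans ?_
        rw [← mul_add]
        exact add_sq_le
      simp only [sum_add_distrib, ← mul_sum] at k3
      rw [sum_product, show √Q ^ 6 = Q ^ 3 by
        rw [show 6 = 2 * 3 from rfl, pow_mul, Real.sq_sqrt hQ0.le]]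
      linarith)
  have h2 : √(N : ℝ) ^ 6 = (N : ℝ) ^ 3 := by
    rw [show 6 = 2 * 3 from rfl, pow_mul, Real.sq_sqrt (Nat.cast_nonneg N)]
  rw [sum_product, mul_pow, mul_pow, h2] at h1
  exact h1.trans_eq (by ring)

end Pool.Agent.Lib.MP_ecd12e_nt.DH2
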