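import Pool.Agent.Lib.MP_ecd12e_nt.DH.Pairs

/-!
The upper bound for the number of pairs, with two sets and a set of shifts of bounded diameter.
-/

set_option autoImplicit false

namespace Pool.Agent.Lib.MP_ecd12e_nt.DH2

open Finset Real MeasureTheory
open Pool.Agent.Lib.MP_ecd12e_nt.Bar (ei)
open Pool.Agent.Lib.MP_ecd12e_nt.Sch
open Pool.Agent.Lib.MP_ecd12e_nt.DH

lemma gram_key2 {w : ℝ → ℝ} (hw : Wt w) :
    ∃ C : ℝ, 0 ≤ C ∧ ∀ (N M : ℕ) (T e0 : ℝ) (W : Finset ℤ),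
      (∀ s ∈ W, ∀ s' ∈ W, |((s - s' : ℤ) : ℝ)| ≤ T) →
      (∀ t : ℤ, |(t : ℝ)| ≤ T → ‖gg w N t - N * ff w t 0 - kr w N M t‖ ≤ e0) →
      ∀ x : ℤ → ℂ, ∑ n ∈ range (3 * N), w (n / N) *
        ‖∑ s ∈ W, x s * ei (-(s * Real.log (n / N)))‖ ^ 2 ≤
        (∑ s ∈ W, ∑ s' ∈ W, (starRingEnd ℂ) (x s) * kr w N M (s - s') * x s').re +
          (C * N + W.card * e0) * ∑ s ∈ W, ‖x s‖ ^ 2 := by
  obtain ⟨C, hC, hd⟩ := decay_t hw.toSm
  refine ⟨5 * C, by positivity, fun N M T e0 W hW he x => ?_⟩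
  have h1 := schur_le W (fun t => N * ff w t 0) (A := N * C) (by positivity) (fun t => by
    rw [norm_mul, Complex.norm_natCast, mul_div_assoc]
    exact mul_le_mul_of_nonneg_left (hd t) (Nat.cast_nonneg N)) x
  have h2 := gram_schur W (fun s s' => gg w N ((s - s' : ℤ) : ℝ) - N * ff w ((s - s' : ℤ) : ℝ) 0 -
    kr w N M (s - s')) (fun _ _ => e0) (R := W.card * e0) (fun _ _ => rfl)
    (fun s hs s' hs' => he _ (hW s hs s' hs')) (fun _ _ => by simp) x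
  have h3 := congrArg Complex.re (gram_form w N W x)
  rw [Complex.ofReal_re] at h3
  simp only [mul_sub, sub_mul, sum_sub_distrib] at h2
  have h4 := (Complex.re_le_norm _).trans h1
  have h5 := (Complex.re_le_norm _).trans h2
  rw [Complex.sub_re, Complex.sub_re, h3] at h5
  nlinarith

lemma pairs_low2 {N : ℕ} (hN : 1 ≤ N) {T V : ℝ} {b : ℕ → ℂ} {W : Finset ℤ} (hV : 0 ≤ V)
    (h : LV N T V b W) (A D : Finset ℤ) :
    V ^ 2 * ((A ×ˢ D).filter fun p => p.1 + p.2 ∈ W).card ≤ ∑ t ∈ A, ∑ l ∈ D,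
      ‖∑ n ∈ Icc N (2 * N), ei (l * Real.log (n / N)) * (b n * ei (t * Real.log n))‖ ^ 2 := by
  rw [← sum_product', mul_comm, ← nsmul_eq_mul, ← sum_const]
  refine le_trans (sum_le_sum fun p hp => ?_)
    (sum_le_sum_of_subset_of_nonneg (filter_subset _ _) fun _ _ _ => by positivity)
  rw [pairs_val hN]
  exact pow_le_pow_left₀ hV (h.big _ (mem_filter.1 hp).2) 2

/-- Pairs `(t, l)` in `A × D` with `t + l` in the set `W` of large values. -/
theorem pairs_up2 {w : ℝ → ℝ} (hw : Wt w) :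
    ∃ C : ℝ, 0 ≤ C ∧ ∀ (N M : ℕ) (T T0 V e0 : ℝ) (b : ℕ → ℂ) (W A D : Finset ℤ), 1 ≤ N →
      0 ≤ e0 → 0 ≤ V → LV N T V b W → (∀ s ∈ D, ∀ s' ∈ D, |((s - s' : ℤ) : ℝ)| ≤ T0) →
      (∀ t : ℤ, |(t : ℝ)| ≤ T0 → ‖gg w N t - N * ff w t 0 - kr w N M t‖ ≤ e0) →
      V ^ 2 * ((A ×ˢ D).filter fun p => p.1 + p.2 ∈ W).card ≤
        (C * N + D.card * e0) * (2 * N * A.card) +
        √(ds A (Icc N (2 * N))) * √(∑ t ∈ D, ∑ s ∈ D, ‖kr w N M (t - s)‖ ^ 2) := by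
  obtain ⟨C, hC, hk⟩ := gram_key2 hw
  refine ⟨C, hC, fun N M T T0 V e0 b W A D hN he hV h hD hap => ?_⟩
  have hN' : (0 : ℝ) < N := by exact_mod_cast hN
  have hA : 0 ≤ C * N + D.card * e0 := by positivity
  have h1 := proj D (Icc N (2 * N)) A (fun l n => ei (l * Real.log (n / N)))
    (fun t n => b n * ei (t * Real.log n)) (fun l l' => kr w N M (l - l')) hA fun y => by
      refine le_trans ?_ (hk N M T0 e0 D hD hap y)
      refine le_trans (le_of_eq (sum_congr rfl fun n hn => ?_))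
        (sum_le_sum_of_subset_of_nonneg (s := Icc N (2 * N)) (fun n hn => ?_)
          fun n _ _ => mul_nonneg (hw.nonneg _) (sq_nonneg _))
      · have h2 : (N : ℝ) ≤ n := by exact_mod_cast (mem_Icc.1 hn).1
        have h3 : (n : ℝ) ≤ 2 * N := by exact_mod_cast (mem_Icc.1 hn).2
        rw [hw.one _ ((one_le_div hN').2 h2) ((div_le_iff₀ hN').2 h3), one_mul]
        simp only [Bar.conj_ei]
      · rw [mem_range]
        have := (mem_Icc.1 hn).2
        omega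
  refine ((pairs_low2 hN hV h A D).trans h1).trans ?_
  have h2 := (min_le_left _ (√(D.card : ℝ) * √(∑ n ∈ Icc N (2 * N), ∑ n' ∈ Icc N (2 * N),
    ‖∑ t ∈ A, b n * ei (t * Real.log n) *
      (starRingEnd ℂ) (b n' * ei (t * Real.log n'))‖ ^ 2))).trans (pairs_tr hN h.hb A)
  have h3 := pairs_hs h.hb A (Icc N (2 * N))
  gcongr

end Pool.Agent.Lib.MP_ecd12e_nt.DH2
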