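import Pool.Agent.Lib.MP_ecd12e_nt.DH.Core
import Pool.Agent.Lib.MP_ecd12e_nt.DH2.Alg2
import Pool.Agent.Lib.MP_ecd12e_nt.DH2.SixA
import Pool.Agent.Lib.MP_ecd12e_nt.DH2.UpA

/-!
The core estimate of the second level.
-/

set_option autoImplicit false

namespace Pool.Agent.Lib.MP_ecd12e_nt.DH2

open Finset Real
open Pool.Agent.Lib.MP_ecd12e_nt.Bar (ei)
open Pool.Agent.Lib.MP_ecd12e_nt.Sch
open Pool.Agent.Lib.MP_ecd12e_nt.DH

lemma core2_shift {D : Finset ℤ} {H : ℤ} (hD : ∀ l ∈ D, -H ≤ l ∧ l ≤ H) :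
    ∃ D' : Finset ℤ, InR D' (2 * H) ∧ D'.card = D.card ∧ ∀ f : ℤ → ℝ,
      ∑ l ∈ D, ∑ l' ∈ D, f (l - l') = ∑ l ∈ D', ∑ l' ∈ D', f (l - l') := by
  refine ⟨D.map (addRightEmbedding H), fun t ht => ?_, card_map _, fun f => ?_⟩
  · obtain ⟨l, hl, rfl⟩ := mem_map.1 ht
    have h := hD l hl
    rw [addRightEmbedding_apply]
    refine ⟨by omega, ?_⟩
    have h2 : l + H ≤ 2 * H := by omega
    exact_mod_cast h2
  · simp only [sum_map, addRightEmbedding_apply, add_sub_add_right_eq_sub]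

lemma core2_even {D : Finset ℤ} {H : ℤ} (hD : ∀ l ∈ D, -H ≤ l ∧ l ≤ H) (f : ℤ → ℝ)
    (hf : ∀ t, f (-t) = f t) {B : ℝ} (h : ∀ D' : Finset ℤ, InR D' H → ∑ l ∈ D', f l ≤ B) :
    ∑ l ∈ D, f l ≤ 2 * B := by
  rw [← sum_filter_add_sum_filter_not D (fun l => 0 ≤ l)]
  have h1 := h (D.filter fun l => 0 ≤ l) fun t ht =>
    ⟨(mem_filter.1 ht).2, by exact_mod_cast (hD t (mem_filter.1 ht).1).2⟩
  have h2 := h ((D.filter fun l => ¬0 ≤ l).map (Equiv.neg ℤ).toEmbedding) fun t ht => by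
    obtain ⟨l, hl, rfl⟩ := mem_map.1 ht
    obtain ⟨h3, h4⟩ := mem_filter.1 hl
    have h5 := hD l h3
    have h6 : -l ≤ H := by omega
    exact ⟨by show 0 ≤ -l; omega, by show ((-l : ℤ) : ℝ) ≤ H; exact_mod_cast h6⟩
  rw [sum_map] at h2
  have h3 : ∑ l ∈ D.filter (fun l => ¬0 ≤ l), f ((Equiv.neg ℤ).toEmbedding l) =
      ∑ l ∈ D.filter (fun l => ¬0 ≤ l), f l := sum_congr rfl fun l _ => hf l
  linarith

lemma core2_card {D : Finset ℤ} {H : ℤ} (hH : 0 ≤ H) (hD : ∀ l ∈ D, -H ≤ l ∧ l ≤ H) :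
    (D.card : ℝ) ≤ 2 * H + 1 := by
  obtain ⟨D', h1, h2, -⟩ := core2_shift hD
  have h3 : (0 : ℝ) ≤ H := by exact_mod_cast hH
  rw [← h2]
  exact card_le_of_inR (by linarith) h1

lemma core2_win {W : Finset ℤ} {T T0 : ℝ} (hT0 : 1 ≤ T0) (hT : T0 ≤ T) (hW : InR W T) :
    (W.card : ℝ) ^ 2 ≤ 3 * (T / T0) * (winA W ⌊T0⌋).card := by
  have hJ : 1 ≤ T / T0 := (one_le_div (by linarith)).2 hT
  obtain ⟨H, hH⟩ : ∃ H : ℤ, H = ⌊T0⌋ := ⟨_, rfl⟩
  have hH2 : T0 < H + 1 := hH ▸ Int.lt_floor_add_one T0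
  have hH0 : 0 < H := hH ▸ Int.floor_pos.2 hT0
  have hH3 : (1 : ℝ) ≤ H := by exact_mod_cast hH0
  rw [← hH]
  obtain ⟨I, hI⟩ : ∃ I : Finset ℤ, I = Icc 0 ⌊T / H⌋ := ⟨_, rfl⟩
  have hI1 : ∀ t ∈ W, t / H ∈ I := fun t ht => by
    rw [hI, mem_Icc, Int.le_floor, le_div_iff₀ (by linarith)]
    refine ⟨Int.ediv_nonneg (hW t ht).1 hH0.le, le_trans ?_ (hW t ht).2⟩
    exact_mod_cast Int.ediv_mul_le t hH0.ne'
  have hI2 : (I.card : ℝ) ≤ 3 * (T / T0) := by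
    have h1 : 0 ≤ T / H := div_nonneg (by linarith) (by linarith)
    have h2 : ((I.card : ℤ) : ℝ) = (⌊T / H⌋ + 1 : ℤ) := by
      rw [hI, Int.card_Icc, sub_zero, Int.toNat_of_nonneg (by linarith [Int.floor_nonneg.2 h1])]
    have h3 := Int.floor_le (T / H)
    have h4 : T / H ≤ 2 * (T / T0) := by
      rw [← mul_div_assoc, div_le_div_iff₀ (by linarith) (by linarith)]
      nlinarith
    push_cast at h2
    linarith
  have hA1 : ((winA W H).card : ℝ) = ∑ i ∈ I, ((W.filter fun t => t / H = i).card : ℝ) ^ 2 := by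
    simpa [sq] using win_sum W H hI1 fun _ _ => 1
  have hR : (W.card : ℝ) = ∑ i ∈ I, ((W.filter fun t => t / H = i).card : ℝ) := by
    rw [card_eq_sum_card_fiberwise hI1, Nat.cast_sum]
  refine le_trans ?_ (mul_le_mul_of_nonneg_right hI2 (Nat.cast_nonneg _))
  rw [hR, hA1]
  exact sq_sum_le_card_mul_sum_sq

lemma core2_abs {U c : ℝ} {m n : ℕ} (hU : 1 ≤ U) (hc : c ≤ U) (h : m + 1 ≤ n) :
    c * U ^ m ≤ U ^ n :=
  calc c * U ^ m ≤ U * U ^ m := mul_le_mul_of_nonneg_right hc (by positivity)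
    _ = U ^ (m + 1) := by ring
    _ ≤ _ := pow_le_pow_right₀ hU h

theorem core2 {η : ℝ} (hη : 0 < η) :
    ∃ N0 : ℕ, ∀ (N : ℕ) (T T0 Y V : ℝ) (b : ℕ → ℂ) (W : Finset ℤ), N0 ≤ N → (N : ℝ) ≤ T0 → T0 ≤ T →
      T ^ 2 ≤ (N : ℝ) ^ 3 → 1 ≤ V → LV N T V b W → W.card ≤ N → (T0 / N) ^ 3 ≤ Y →
      T0 ^ 2 ≤ Y ^ 3 → (N : ℝ) ^ 12 * (T0 + (T0 / N) ^ 4) ≤ Y * V ^ 16 → Y ≤ N →
      W.card * V ^ 2 ≤ (N : ℝ) ^ η * ((T / T0) * (N : ℝ) ^ 2) ∨
      V ^ 4 ≤ (N : ℝ) ^ η * (N : ℝ) ^ 3 ∨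
      (V ^ 4 ≤ (N : ℝ) ^ η * ((N : ℝ) ^ 2 * T0) ∧
        ((W.card : ℝ) ^ 6 * V ^ 22 ≤ (N : ℝ) ^ η * ((T / T0) ^ 6 * (N : ℝ) ^ 19 * Y) ∨
          (W.card : ℝ) ^ 6 * V ^ 26 ≤
            (N : ℝ) ^ η * ((T / T0) ^ 5 * (N : ℝ) ^ 21 * (T0 + (T0 / N) ^ 4) * Y))) ∨
      (W.card : ℝ) ^ 4 * V ^ 40 ≤
        (N : ℝ) ^ η * ((T / T0) ^ 3 * (N : ℝ) ^ 30 * Y ^ 2 * (T0 + (T0 / N) ^ 4)) := by
  obtain ⟨w, hw⟩ := exists_wt
  obtain ⟨j, a, hj, ha, hpar⟩ := main_param (η := min (η / 105) 1) (lt_min (by positivity) one_pos)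
  obtain ⟨CL, hCL1, hCL⟩ := exists_loss ha
  obtain ⟨Ca, hCa0, hCa⟩ := approx hw.toSm hj
  obtain ⟨Cs, hCs0, hCs⟩ := kr_sup hw.toSm
  obtain ⟨Ch, hCh0, hCh⟩ := kr_hs hw.toSm
  obtain ⟨Ce, hCe0, hCe⟩ := kr_eight hw.toSm
  obtain ⟨Cx, hCx0, hCx⟩ := kr_six hw.toSm
  obtain ⟨Cp, hCp0, hCp⟩ := pairs_up2 hw
  obtain ⟨Cw, hCw0, hCw⟩ := win_one hw
  obtain ⟨N0, hN0⟩ := exists_absorb ha (100000 + CL + 3 * Ca + Cs + Ch + Ce + Cx + Cp + Cw)
  refine ⟨N0 + 1, fun N T T0 Y V b W hN hNT0 hT0T hTN hV h hRN hY1 hY2 hY3 hYN => ?_⟩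
  have hN1 : 1 ≤ N := by omega
  have hN1' : (1 : ℝ) ≤ N := by exact_mod_cast hN1
  have hN0' : (0 : ℝ) < N := by linarith
  have hT01 : 1 ≤ T0 := hN1'.trans hNT0
  have hT1 : 1 ≤ T := hT01.trans hT0T
  have hN2 : (1 : ℝ) ≤ (N : ℝ) ^ 2 := one_le_pow₀ hN1'
  have hNN : (N : ℝ) ≤ (N : ℝ) ^ 2 := le_self_pow₀ hN1' (by norm_num)
  have hTN2 : T ≤ (N : ℝ) ^ 2 := by
    refine le_of_pow_le_pow_left₀ (n := 2) (by norm_num) (by positivity) ?_
    calc T ^ 2 ≤ (N : ℝ) ^ 3 := hTN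
      _ ≤ (N : ℝ) ^ 4 := pow_le_pow_right₀ hN1' (by norm_num)
      _ = _ := by ring
  have hK := hN0 N (by omega)
  have hP := hCL N ((N : ℝ) ^ 2) hN2 hN1' le_rfl
  obtain ⟨-, hU20, hUj⟩ := hpar N hN1'
  have hη1 : ((N : ℝ) ^ min (η / 105) 1) ^ 105 ≤ (N : ℝ) ^ η := by
    rw [← Real.rpow_natCast, ← Real.rpow_mul hN0'.le]
    refine Real.rpow_le_rpow_of_exponent_le hN1' ?_
    have := min_le_left (η / 105) 1
    push_cast
    linarith
  have hη2 : (N : ℝ) ^ min (η / 105) 1 ≤ N :=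
    (Real.rpow_le_rpow_of_exponent_le hN1' (min_le_right _ _)).trans_eq (Real.rpow_one _)
  generalize (N : ℝ) ^ a = U at hK hP hU20 hUj
  have hU : 100000 ≤ U := by linarith
  have hU0 : 0 < U := by linarith
  have hU1 : 1 ≤ U := by linarith
  have hfin : U ^ 2100 ≤ (N : ℝ) ^ η := by
    refine le_trans ?_ hη1
    rw [show U ^ 2100 = (U ^ 20) ^ 105 by rw [← pow_mul]]
    exact pow_le_pow_left₀ (by positivity) hU20 105
  have hU5 : U ^ 5 ≤ N := (pow_le_pow_right₀ hU1 (by norm_num)).trans (hU20.trans hη2)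
  have hUN : 100000 * U ≤ N :=
    le_trans (by simpa using core2_abs (m := 1) (n := 5) hU1 hU (by norm_num)) hU5
  have hP0 : 0 ≤ CL * U := by positivity
  have hPU : CL * U ≤ U ^ 2 := by
    rw [sq]
    exact mul_le_mul_of_nonneg_right (by linarith) hU0.le
  generalize CL * U = P at hP hP0 hPU
  obtain ⟨M, hM⟩ : ∃ M : ℕ, M = ⌈U * (1 + 2 * T0) / N⌉₊ := ⟨_, rfl⟩
  have hM0 : 0 < U * (1 + 2 * T0) / N := by positivity
  have hM1 : 1 ≤ M := by rw [hM]; exact Nat.ceil_pos.2 hM0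
  have hM1' : (1 : ℝ) ≤ M := by exact_mod_cast hM1
  have hM2 : U * (1 + 2 * T0) ≤ M * N := by
    rw [← div_le_iff₀ hN0', hM]
    exact Nat.le_ceil _
  have hQ1 : 1 ≤ T0 / N := (one_le_div hN0').2 hNT0
  have hM3 : (M : ℝ) ≤ 4 * U * (T0 / N) := by
    have h1 : (M : ℝ) < U * (1 + 2 * T0) / N + 1 := by rw [hM]; exact Nat.ceil_lt_add_one hM0.le
    have h2 : U * (1 + 2 * T0) / N ≤ 3 * (U * (T0 / N)) := by
      rw [← mul_div_assoc, ← mul_div_assoc]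
      exact div_le_div_of_nonneg_right (by nlinarith only [hT01, hU0]) hN0'.le
    have h3 : 1 ≤ U * (T0 / N) := one_le_mul_of_one_le_of_one_le (by linarith) hQ1
    linarith
  have hM4 : (M : ℝ) ≤ T0 := by
    refine hM3.trans ?_
    rw [← mul_div_assoc, div_le_iff₀ hN0']
    nlinarith only [hUN, hU0, hT01]
  have hT02 : T0 ≤ (N : ℝ) ^ 2 := hT0T.trans hTN2
  have hM5 : (M : ℝ) ≤ (N : ℝ) ^ 2 := hM4.trans hT02
  have hMn : (0 : ℝ) ≤ M := Nat.cast_nonneg M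
  have hUj0 : 0 < U ^ j := by positivity
  obtain ⟨e0, he0⟩ : ∃ e0 : ℝ, e0 = Ca * (N * M) / U ^ j := ⟨_, rfl⟩
  have he1 : 0 ≤ e0 := by rw [he0]; positivity
  have he2 : (2 * T0 + 1) * e0 ≤ N := by
    refine le_trans ?_ hN1'
    rw [he0, ← mul_div_assoc, div_le_one hUj0]
    refine le_trans ?_ hUj
    have h1 : 2 * T0 + 1 ≤ 3 * (N : ℝ) ^ 2 := by linarith
    calc (2 * T0 + 1) * (Ca * (N * M)) ≤ 3 * (N : ℝ) ^ 2 * (Ca * (N * (N : ℝ) ^ 2)) := by gcongr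
      _ = 3 * Ca * (N : ℝ) ^ 5 := by ring
      _ ≤ N * (N : ℝ) ^ 5 := mul_le_mul_of_nonneg_right (by linarith) (by positivity)
      _ = (N : ℝ) ^ 6 := by ring
      _ ≤ _ := pow_le_pow_right₀ hN1' (by norm_num)
  have happ : ∀ t : ℤ, |(t : ℝ)| ≤ 2 * T0 → ‖gg w N t - N * ff w t 0 - kr w N M t‖ ≤ e0 := by
    intro t ht
    rw [he0]
    exact hCa N M U t hN1 hM1 hU0 (le_trans (by gcongr) hM2)
  have hsup : ∀ t : ℤ, ‖kr w N M t‖ ^ 2 ≤ U ^ 7 * T0 := by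
    intro t
    refine (hCs N M _ P t hN1 hM1 hP hM5).trans ?_
    have h1 : (N : ℝ) * M ≤ 4 * U * T0 := by
      refine (mul_le_mul_of_nonneg_left hM3 hN0'.le).trans_eq ?_
      field_simp
    calc Cs * P ^ 2 * (N * M) ≤ U * (U ^ 2) ^ 2 * (4 * U * T0) := by gcongr; linarith
      _ = 4 * U ^ 6 * T0 := by ring
      _ ≤ _ := mul_le_mul_of_nonneg_right (core2_abs hU1 (by linarith) le_rfl) (by positivity)
  have hpow := win_pow hP
  obtain ⟨H, hH⟩ : ∃ H : ℤ, H = ⌊T0⌋ := ⟨_, rfl⟩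
  have hH1 : (H : ℝ) ≤ T0 := hH ▸ Int.floor_le T0
  have hH0 : 0 < H := hH ▸ Int.floor_pos.2 hT01
  have hH3 : (1 : ℝ) ≤ H := by exact_mod_cast hH0
  have hY0 : 1 ≤ Y := (one_le_pow₀ hQ1).trans hY1
  have hU4 : 1 ≤ U ^ 4 := one_le_pow₀ hU1
  have hYY : Y ≤ U ^ 4 * Y := le_mul_of_one_le_left (by linarith) hU4
  have hY4 : 2 * (M : ℝ) ^ 3 ≤ U ^ 4 * Y := by
    calc 2 * (M : ℝ) ^ 3 ≤ 2 * (4 * U * (T0 / N)) ^ 3 := by gcongr
      _ = 128 * U ^ 3 * (T0 / N) ^ 3 := by ring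
      _ ≤ _ := mul_le_mul (core2_abs hU1 (by linarith) le_rfl) hY1 (by positivity) (by positivity)
  have hY5 : (M : ℝ) ≤ U ^ 4 * Y := by
    have h1 : (M : ℝ) ≤ (M : ℝ) ^ 3 := le_self_pow₀ hM1' (by norm_num)
    linarith
  have hY6 : U ^ 4 * Y ≤ (N : ℝ) ^ 2 := by
    rw [sq]
    exact mul_le_mul ((pow_le_pow_right₀ hU1 (by norm_num)).trans hU5) hYN (by linarith) hN0'.le
  have hY7 : (2 * (H : ℝ)) ^ 2 ≤ (U ^ 4 * Y) ^ 3 := by
    have h1 : (4 : ℝ) ≤ (U ^ 4) ^ 3 := by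
      rw [← pow_mul]
      exact le_trans (by linarith) (le_self_pow₀ hU1 (by norm_num))
    calc (2 * (H : ℝ)) ^ 2 ≤ (2 * T0) ^ 2 := by gcongr
      _ = 4 * T0 ^ 2 := by ring
      _ ≤ (U ^ 4) ^ 3 * Y ^ 3 := mul_le_mul h1 hY2 (by positivity) (by positivity)
      _ = _ := (mul_pow _ _ _).symm
  have hV0 : 0 < V := by linarith
  have hUK : ∀ m : ℕ, m ≤ 50 → U ^ m ≤ U ^ 50 := fun m hm => pow_le_pow_right₀ hU1 hm
  have hUK1 : U ≤ U ^ 50 := le_self_pow₀ hU1 (by norm_num)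
  have E : Env (fun t => ‖kr w N M t‖) W H ⌊2 * P⌋₊ (U ^ 50) N V (U ^ 4 * Y)
      (T0 + (T0 / N) ^ 4) := by
    refine ⟨?_, hN0', hV0, by positivity, by positivity, hH0, ?_, ?_, fun t => norm_nonneg _,
      win_norm w N M, fun t => ?_, ?_, fun A hA a ha => ?_, fun A hA D hD => ?_, fun D hD => ?_,
      fun S B a hS hB => ?_, fun D hD => ?_⟩
    · refine le_trans ?_ (hUK 2 (by norm_num))
      nlinarith only [hU]
    · refine (Nat.floor_le (by positivity)).trans ?_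
      linarith [core2_abs (c := 2) (m := 2) (n := 50) hU1 (by linarith) (by norm_num)]
    · exact hY3.trans ((mul_le_mul_of_nonneg_right hYY (by positivity)).trans_eq (mul_comm _ _))
    · have h1 : ‖kr w N M t‖ ≤ (N : ℝ) ^ 2 := by
        refine le_of_pow_le_pow_left₀ (n := 2) (by norm_num) (by positivity) ((hsup t).trans ?_)
        have h2 : U ^ 7 ≤ (U ^ 5) ^ 2 := by
          rw [← pow_mul]
          exact pow_le_pow_right₀ hU1 (by norm_num)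
        have h3 : (U ^ 5) ^ 2 ≤ (N : ℝ) ^ 2 := pow_le_pow_left₀ (by positivity) hU5 2
        rw [sq ((N : ℝ) ^ 2)]
        exact mul_le_mul (h2.trans h3) hT02 (by linarith) (by positivity)
      refine h1.trans ?_
      have h2 : 1 / (8 * (N : ℝ)) ≤ V ^ 2 / (8 * N) :=
        div_le_div_of_nonneg_right (one_le_pow₀ hV) (by positivity)
      calc (N : ℝ) ^ 2 ≤ (N : ℝ) ^ 5 := pow_le_pow_right₀ hN1' (by norm_num)
        _ = 8 * ((N : ℝ) ^ 2) ^ 3 * (1 / (8 * N)) := by field_simp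
        _ ≤ _ := mul_le_mul hpow h2 (by positivity) (by positivity)
    · refine le_trans ?_ hpow
      have h1 : (N : ℝ) ^ 2 ≤ ((N : ℝ) ^ 2) ^ 3 := le_self_pow₀ hN2 (by norm_num)
      linarith
    · refine le_trans ?_ (hCw N M T (2 * T0) V e0 b A a H hN1 hV0.le he1 he2
        ⟨h.hb, fun t ht => h.inr t (hA ht), fun t ht => h.big t (hA ht)⟩ hH0.le (by linarith) ha
        happ)
      have h1 : Cw * N * A.card ≤ U ^ 50 * N * A.card := by gcongr; linarith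
      linarith
    · have h1 := hCp N M T (2 * T0) V e0 b W A D hN1 he1 hV0.le h (fun s hs s' hs' => by
        have h2 := hD s hs
        have h3 := hD s' hs'
        have h4 : |s - s'| ≤ 2 * H := abs_le.2 ⟨by omega, by omega⟩
        have h5 : ((|s - s'| : ℤ) : ℝ) ≤ ((2 * H : ℤ) : ℝ) := by exact_mod_cast h4
        rw [Int.cast_abs] at h5
        push_cast at h5 ⊢
        linarith) happ
      refine h1.trans (add_le_add ?_ (mul_le_mul_of_nonneg_right ?_ (Real.sqrt_nonneg _)))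
      · have h2 : (D.card : ℝ) * e0 ≤ N :=
          (mul_le_mul_of_nonneg_right ((core2_card hH0.le hD).trans (by linarith)) he1).trans he2
        have h3 : Cp * N + D.card * e0 ≤ U * N := by
          have h4 := mul_le_mul_of_nonneg_right (show Cp + 1 ≤ U by linarith) hN0'.le
          linarith
        calc _ ≤ U * N * (2 * N * A.card) := mul_le_mul_of_nonneg_right h3 (by positivity)
          _ = 2 * U ^ 1 * ((N : ℝ) ^ 2 * A.card) := by ring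
          _ ≤ U ^ 50 * ((N : ℝ) ^ 2 * A.card) := mul_le_mul_of_nonneg_right
              (core2_abs hU1 (by linarith) (by norm_num)) (by positivity)
          _ = _ := by ring
      · have hA0 : (0 : ℝ) ≤ A.card := Nat.cast_nonneg _
        have hAN : (A.card : ℝ) ≤ N := by exact_mod_cast (card_le_card hA).trans hRN
        rw [Real.sqrt_le_iff]
        refine ⟨mul_nonneg (mul_nonneg (pow_nonneg hU0.le _) hN0'.le) (Real.sqrt_nonneg _),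
          (boot hP hT1 hTN hN0'.le hNN (fun t ht => h.inr t (hA ht)) hN0'
            le_rfl (inI_Icc N)).trans ?_⟩
        have h2 : (A.card : ℝ) ^ 2 + A.card * N ≤ 2 * (A.card * N) := by
          have := mul_le_mul_of_nonneg_left hAN hA0
          linarith
        rw [mul_pow, mul_pow, Real.sq_sqrt hA0, ← pow_mul, mul_assoc (U ^ (50 * 2))]
        calc _ ≤ 1000 * (U ^ 2) ^ 6 * N * (2 * (A.card * N)) := by gcongr
          _ = 2000 * U ^ 12 * ((N : ℝ) ^ 2 * A.card) := by ring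
          _ ≤ U ^ (50 * 2) * ((N : ℝ) ^ 2 * A.card) := mul_le_mul_of_nonneg_right
              (core2_abs hU1 (by linarith) (by norm_num)) (by positivity)
    · obtain ⟨D', h1, h2, h3⟩ := core2_shift hD
      rw [h3 fun t => ‖kr w N M t‖ ^ 2, ← h2, mul_assoc]
      refine (hCh N M _ P _ _ D' hN1 hM1 hP hY5 hY6 (by linarith) hY7 h1).trans ?_
      refine mul_le_mul_of_nonneg_right ?_ (by positivity)
      calc Ch * P ^ 8 ≤ Ch * (U ^ 2) ^ 8 := by gcongr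
        _ = Ch * U ^ 16 := by rw [← pow_mul]
        _ ≤ _ := core2_abs hU1 (by linarith) (by norm_num)
    · have h0 : ∀ A : Finset ℤ, (∀ x ∈ A, a ≤ x ∧ x ≤ a + 2 * H) →
          ∀ t ∈ A, a ≤ t ∧ ((t - a : ℤ) : ℝ) ≤ 2 * H := fun A hA t ht => by
        have h1 := hA t ht
        have h2 : t - a ≤ 2 * H := by omega
        exact ⟨h1.1, by exact_mod_cast h2⟩
      refine (hCx N M _ P _ _ S B a a hN1 hM1 hP hM5 hY4
        (hY6.trans (le_self_pow₀ hN2 (by norm_num))) (by linarith) hY7 (h0 S hS) (h0 B hB)).trans ?_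
      rw [mul_assoc (U ^ 50 * _), mul_assoc (U ^ 50)]
      refine mul_le_mul_of_nonneg_right ?_ (by positivity)
      calc Cx * P ^ 16 ≤ Cx * (U ^ 2) ^ 16 := by gcongr
        _ = Cx * U ^ 32 := by rw [← pow_mul]
        _ ≤ _ := core2_abs hU1 (by linarith) (by norm_num)
    · refine (core2_even hD (fun t => ‖kr w N M t‖ ^ 8) (fun t => by rw [win_norm]) fun D' hD' =>
        hCe N M _ P H D' hN1 hM1 hP hM5 (by linarith) hD').trans ?_
      have h2 : (M : ℝ) ^ 4 ≤ 256 * U ^ 4 * (T0 / N) ^ 4 :=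
        (pow_le_pow_left₀ hMn hM3 4).trans_eq (by ring)
      have h3 : T0 ≤ 256 * U ^ 4 * T0 := le_mul_of_one_le_left (by linarith) (by linarith)
      have h4 : H + (M : ℝ) ^ 4 ≤ 256 * U ^ 4 * (T0 + (T0 / N) ^ 4) := by linarith
      calc _ ≤ 2 * (U * (U ^ 2) ^ 17 * ((N : ℝ) ^ 4 * (256 * U ^ 4 * (T0 + (T0 / N) ^ 4)))) := by
            gcongr; linarith
        _ = 512 * U ^ 39 * ((N : ℝ) ^ 4 * (T0 + (T0 / N) ^ 4)) := by ring
        _ ≤ U ^ 50 * ((N : ℝ) ^ 4 * (T0 + (T0 / N) ^ 4)) := mul_le_mul_of_nonneg_right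
            (core2_abs hU1 (by linarith) (by norm_num)) (by positivity)
        _ = _ := (mul_assoc _ _ _).symm
  have hJ0 : 0 ≤ T / T0 := by positivity
  have hA : (W.card : ℝ) ^ 2 ≤ U ^ 50 * (T / T0) * (winA W H).card := by
    refine (hH ▸ core2_win hT01 hT0T h.inr).trans ?_
    gcongr
    linarith
  have hK0 : ∀ m : ℕ, m ≤ 2 → (U ^ 50) ^ 40 * (U ^ 4) ^ m ≤ (N : ℝ) ^ η := fun m hm => by
    refine le_trans ?_ hfin
    rw [← pow_mul, ← pow_mul, ← pow_add]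
    exact pow_le_pow_right₀ hU1 (by omega)
  have hK1 : (U ^ 50) ^ 40 ≤ (N : ℝ) ^ η := by simpa using hK0 0 (by norm_num)
  have hK2 : (U ^ 50) ^ 40 * U ^ 4 ≤ (N : ℝ) ^ η := by simpa using hK0 1 (by norm_num)
  have hK3 := hK0 2 le_rfl
  have hη3 : 1 ≤ (N : ℝ) ^ η := Real.one_le_rpow hN1' hη.le
  have hc := comb E hJ0 hA
  generalize (U ^ 50) ^ 40 = K at hc hK1 hK2 hK3
  rcases hc with h1 | h1 | ⟨⟨t, ht⟩, h1⟩
  · exact Or.inl (h1.trans (mul_le_mul_of_nonneg_right hK1 (by positivity)))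
  · refine Or.inr (Or.inl ?_)
    refine le_of_pow_le_pow_left₀ (n := 3) (by norm_num) (by positivity) ?_
    have h2 : (N : ℝ) ^ η ≤ ((N : ℝ) ^ η) ^ 3 := le_self_pow₀ hη3 (by norm_num)
    calc (V ^ 4) ^ 3 = V ^ 12 := by ring
      _ ≤ ((N : ℝ) ^ η) ^ 3 * (N : ℝ) ^ 9 :=
          h1.trans (mul_le_mul_of_nonneg_right (hK1.trans h2) (by positivity))
      _ = _ := by ring
  have hV4 : V ^ 4 ≤ (N : ℝ) ^ η * ((N : ℝ) ^ 2 * T0) := by
    have h2 := (pow_le_pow_left₀ (by positivity) ht 2).trans (hsup t)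
    rw [div_pow, div_le_iff₀ (by positivity)] at h2
    calc V ^ 4 = (V ^ 2) ^ 2 := by ring
      _ ≤ _ := h2
      _ = 64 * U ^ 7 * ((N : ℝ) ^ 2 * T0) := by ring
      _ ≤ _ := mul_le_mul_of_nonneg_right
          ((core2_abs hU1 (by linarith) (by norm_num)).trans hfin) (by positivity)
  refine Or.inr (Or.inr ?_)
  rcases h1 with h1 | h1 | h1
  · refine Or.inl ⟨hV4, Or.inl (h1.trans ?_)⟩
    calc _ = K * U ^ 4 * ((T / T0) ^ 6 * (N : ℝ) ^ 19 * Y) := by ring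
      _ ≤ _ := mul_le_mul_of_nonneg_right hK2 (by positivity)
  · refine Or.inl ⟨hV4, Or.inr (h1.trans ?_)⟩
    calc _ = K * U ^ 4 * ((T / T0) ^ 5 * (N : ℝ) ^ 21 * (T0 + (T0 / N) ^ 4) * Y) := by
          generalize T0 + (T0 / N) ^ 4 = Z
          ring
      _ ≤ _ := mul_le_mul_of_nonneg_right hK2 (by positivity)
  · refine Or.inr (h1.trans ?_)
    calc _ = K * (U ^ 4) ^ 2 * ((T / T0) ^ 3 * (N : ℝ) ^ 30 * Y ^ 2 * (T0 + (T0 / N) ^ 4)) := by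
          generalize T0 + (T0 / N) ^ 4 = Z
          ring
      _ ≤ _ := mul_le_mul_of_nonneg_right hK3 (by positivity)

end Pool.Agent.Lib.MP_ecd12e_nt.DH2
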