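import Pool.Agent.Lib.MP_ecd12e_nt.DH.Win

/-!
Definitions for the second level of the trace inequality.
-/

set_option autoImplicit false

namespace Pool.Agent.Lib.MP_ecd12e_nt.DH

open Finset Real MeasureTheory
open Pool.Agent.Lib.MP_ecd12e_nt.Bar (ei)
open Pool.Agent.Lib.MP_ecd12e_nt.Sch

/-- The number of pairs `(t, l)` in `U × D` with `t + l` in `W`. -/
def pr (U D W : Finset ℤ) : ℕ := ((U ×ˢ D).filter (fun p => p.1 + p.2 ∈ W)).card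

open Classical in
/-- The differences at which `k` is at least `x`. -/
noncomputable def lev (k : ℤ → ℝ) (H : ℤ) (x : ℝ) : Finset ℤ := (Icc (-H) H).filter fun l => x ≤ k l

open Classical in
/-- The pairs in one window at whose difference `k` is at least `x`. -/
noncomputable def edg (k : ℤ → ℝ) (W : Finset ℤ) (H : ℤ) (x : ℝ) : Finset (ℤ × ℤ) :=
  (winA W H).filter fun p => x ≤ k (p.1 - p.2)

open Classical in
/-- Triangles with two edges of level `x` and one edge of level `y`. -/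
noncomputable def trg (k : ℤ → ℝ) (W : Finset ℤ) (H : ℤ) (x y : ℝ) : Finset (ℤ × ℤ × ℤ) :=
  (W ×ˢ W ×ˢ W).filter fun q => (q.1, q.2.1) ∈ edg k W H x ∧ (q.1, q.2.2) ∈ edg k W H x ∧
    y ≤ k (q.2.1 - q.2.2)

/-- The properties of the size `k` of the dual sum that the argument uses. -/
structure Env (k : ℤ → ℝ) (W : Finset ℤ) (H : ℤ) (L : ℕ) (K N V Y Z : ℝ) : Prop where
  hK : 10 ^ 9 ≤ K
  hN : 0 < N
  hV : 0 < V
  hY : 0 < Y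
  hZ : 0 ≤ Z
  hH : 0 < H
  hL : (L : ℝ) ≤ K
  hYZ : N ^ 12 * Z ≤ V ^ 16 * Y
  nn : ∀ t, 0 ≤ k t
  ev : ∀ t, k (-t) = k t
  top : ∀ t, k t ≤ 2 ^ L * (V ^ 2 / (8 * N))
  wid : 2 * (H : ℝ) + 1 ≤ 2 ^ L
  hal : ∀ U ⊆ W, ∀ a : ℤ, (∀ t ∈ U, a ≤ t ∧ t < a + H) →
    V ^ 2 / (2 * N) * (U.card : ℝ) ^ 2 - K * N * U.card ≤ ∑ s ∈ U, ∑ s' ∈ U, k (s - s')
  up : ∀ U ⊆ W, ∀ D : Finset ℤ, (∀ l ∈ D, -H ≤ l ∧ l ≤ H) → V ^ 2 * pr U D W ≤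
    K * N ^ 2 * U.card + K * N * √(U.card : ℝ) * √(∑ l ∈ D, ∑ l' ∈ D, k (l - l') ^ 2)
  two : ∀ D : Finset ℤ, (∀ l ∈ D, -H ≤ l ∧ l ≤ H) →
    ∑ l ∈ D, ∑ l' ∈ D, k (l - l') ^ 2 ≤ K * N * ((D.card : ℝ) ^ 2 + D.card * Y)
  six : ∀ (S B : Finset ℤ) (a : ℤ), (∀ x ∈ S, a ≤ x ∧ x ≤ a + 2 * H) →
    (∀ x ∈ B, a ≤ x ∧ x ≤ a + 2 * H) → ∑ s ∈ S, ∑ b ∈ B, k (s - b) ^ 6 ≤
      K * N ^ 3 * √((S.card : ℝ) ^ 2 + S.card * Y) * √((B.card : ℝ) ^ 2 + B.card * Y)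
  eight : ∀ D : Finset ℤ, (∀ l ∈ D, -H ≤ l ∧ l ≤ H) → ∑ l ∈ D, k l ^ 8 ≤ K * N ^ 4 * Z

variable {k : ℤ → ℝ} {W : Finset ℤ} {H : ℤ} {L : ℕ} {K N V Y Z x : ℝ}

lemma mem_lev {l : ℤ} : l ∈ lev k H x ↔ (-H ≤ l ∧ l ≤ H) ∧ x ≤ k l := by
  rw [lev, mem_filter, mem_Icc]

lemma mem_edg {p : ℤ × ℤ} :
    p ∈ edg k W H x ↔ ((p.1 ∈ W ∧ p.2 ∈ W) ∧ p.1 / H = p.2 / H) ∧ x ≤ k (p.1 - p.2) := by
  rw [edg, mem_filter, winA, mem_filter, mem_product]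

lemma edg_sub (hH : 0 < H) {p : ℤ × ℤ} (h : p ∈ edg k W H x) : p.1 - p.2 ∈ lev k H x := by
  obtain ⟨⟨-, h1⟩, h2⟩ := mem_edg.1 h
  have h3 := win_mem hH h1
  have h4 := win_mem hH (rfl : p.2 / H = p.2 / H)
  exact mem_lev.2 ⟨⟨by omega, by omega⟩, h2⟩

lemma Env.lev_eight (E : Env k W H L K N V Y Z) (hx : 0 ≤ x) :
    (lev k H x).card * x ^ 8 ≤ K * N ^ 4 * Z := by
  refine le_trans ?_ (E.eight (lev k H x) fun l hl => (mem_lev.1 hl).1)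
  rw [← nsmul_eq_mul]
  exact card_nsmul_le_sum _ _ _ fun l hl => pow_le_pow_left₀ hx (mem_lev.1 hl).2 8

lemma Env.lev_card (E : Env k W H L K N V Y Z) (hx : V ^ 2 / (8 * N) ≤ x) :
    (lev k H x).card + Y ≤ K ^ 2 * Y := by
  have hN := E.hN
  have hV := E.hV
  have hK := E.hK
  have hY := E.hY
  have h0 : 0 < V ^ 2 / (8 * N) := by positivity
  have h1 : (lev k H x).card * (V ^ 2 / (8 * N)) ^ 8 ≤ K * N ^ 4 * Z :=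
    (mul_le_mul_of_nonneg_left (pow_le_pow_left₀ h0.le hx 8) (Nat.cast_nonneg _)).trans
      (E.lev_eight (h0.le.trans hx))
  rw [div_pow, ← mul_div_assoc, div_le_iff₀ (by positivity)] at h1
  have h2 : ((lev k H x).card : ℝ) * V ^ 16 ≤ 8 ^ 8 * K * Y * V ^ 16 :=
    calc _ = (lev k H x).card * (V ^ 2) ^ 8 := by ring
      _ ≤ _ := h1
      _ = 8 ^ 8 * K * (N ^ 12 * Z) := by ring
      _ ≤ 8 ^ 8 * K * (V ^ 16 * Y) := mul_le_mul_of_nonneg_left E.hYZ (by positivity)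
      _ = _ := by ring
  have h3 := le_of_mul_le_mul_right h2 (by positivity)
  have h4 : 8 ^ 8 * K + 1 ≤ K ^ 2 := by nlinarith
  nlinarith [mul_le_mul_of_nonneg_right h4 hY.le]

end Pool.Agent.Lib.MP_ecd12e_nt.DH
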