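import Pool.Agent.Lib.MP_ecd12e_nt.DH.Expo

/-!
The exponents for the second level argument.
-/

set_option autoImplicit false

namespace Pool.Agent.Lib.MP_ecd12e_nt.DH2

open Finset Real
open Pool.Agent.Lib.MP_ecd12e_nt.DH

lemma expo2_key {k m p q : ℕ} (hk : k ≠ 0) (hm : m + p ≤ 18 * k) (hq : q ≤ k) {c x a b K κ V R : ℝ}
    (hc : c ≤ 2 ^ k) (hK : 1 ≤ K) (hκ : 1 ≤ κ) (hR : 0 ≤ R) (hN : exp a ≤ κ * V)
    (h : R ^ k * V ^ m ≤ K ^ q * κ ^ p * (c * exp x)) (hx : x ≤ k * b + m * a) :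
    R ≤ 2 * K * κ ^ 18 * exp b := by
  have h0 : 0 < exp a ^ m := by positivity
  have hK0 : 0 ≤ K := by linarith
  have hκ0 : 0 ≤ κ := by linarith
  refine le_of_pow_le_pow_left₀ hk (by positivity) (le_of_mul_le_mul_right ?_ h0)
  have h1 : exp x ≤ exp b ^ k * exp a ^ m := by
    rw [← exp_nat_mul, ← exp_nat_mul, ← exp_add]
    exact exp_le_exp.2 hx
  have h2 : c * exp x ≤ 2 ^ k * (exp b ^ k * exp a ^ m) :=
    mul_le_mul hc h1 (exp_pos _).le (by positivity)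
  have h3 : K ^ q ≤ K ^ k := pow_le_pow_right₀ hK hq
  have h4 : κ ^ (m + p) ≤ κ ^ (18 * k) := pow_le_pow_right₀ hκ hm
  calc R ^ k * exp a ^ m ≤ R ^ k * (κ * V) ^ m := by gcongr
    _ = κ ^ m * (R ^ k * V ^ m) := by ring
    _ ≤ κ ^ m * (K ^ q * κ ^ p * (c * exp x)) := by gcongr
    _ ≤ κ ^ m * (K ^ q * κ ^ p * (2 ^ k * (exp b ^ k * exp a ^ m))) := by gcongr
    _ = κ ^ (m + p) * K ^ q * (2 ^ k * (exp b ^ k * exp a ^ m)) := by rw [pow_add]; ring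
    _ ≤ κ ^ (18 * k) * K ^ k * (2 ^ k * (exp b ^ k * exp a ^ m)) := by gcongr
    _ = (2 * K * κ ^ 18 * exp b) ^ k * exp a ^ m := by rw [pow_mul]; simp only [mul_pow]; ring

lemma expo2_gen {σ n τ t Y4 K κ V R : ℝ} (i j : ℕ) (hi : i ≤ 2) (hj : j ≤ 2)
    (hY : Y4 ≤ 2 * exp t)
    (h1 : τ - t + 2 * n ≤ (2 - 2 * σ) * τ + 2 * (σ * n))
    (h2 : 6 * (τ - t) + 19 * n + 9 / 10 * n + i * (2 * n + t) ≤
      6 * ((2 - 2 * σ) * τ) + (22 + 4 * i) * (σ * n))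
    (h3 : 5 * (τ - t) + 21 * n + t + 9 / 10 * n + j * (2 * n + t) ≤
      6 * ((2 - 2 * σ) * τ) + (26 + 4 * j) * (σ * n))
    (h4 : 3 * (τ - t) + 30 * n + 2 * (9 / 10 * n) + t ≤ 4 * ((2 - 2 * σ) * τ) + 40 * (σ * n))
    (hK : 1 ≤ K) (hκ : 1 ≤ κ) (hV : 0 < V) (hR : 0 ≤ R) (hN : exp (σ * n) ≤ κ * V)
    (h : R * V ^ 2 ≤ K * ((exp τ / exp t) * exp n ^ 2) ∨
      (V ^ 4 ≤ K * (exp n ^ 2 * exp t) ∧
        (R ^ 6 * V ^ 22 ≤
            K * ((exp τ / exp t) ^ 6 * exp n ^ 19 * (2 * κ ^ 16 * exp (9 / 10 * n))) ∨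
          R ^ 6 * V ^ 26 ≤
            K * ((exp τ / exp t) ^ 5 * exp n ^ 21 * Y4 * (2 * κ ^ 16 * exp (9 / 10 * n))))) ∨
      R ^ 4 * V ^ 40 ≤
        K * ((exp τ / exp t) ^ 3 * exp n ^ 30 * (2 * κ ^ 16 * exp (9 / 10 * n)) ^ 2 * Y4)) :
    R ≤ 2 * K * κ ^ 18 * exp ((2 - 2 * σ) * τ) := by
  have hK0 : 0 ≤ K := by linarith
  have hκ0 : 0 ≤ κ := by linarith
  rw [← exp_sub] at h
  rcases h with h | ⟨h0, h | h⟩ | h
  · refine expo2_key (k := 1) (m := 2) (p := 0) (q := 1) (c := 1) (x := τ - t + 2 * n) one_ne_zero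
      (by norm_num) le_rfl (by norm_num) hK hκ hR hN ?_ (by push_cast; linarith)
    rw [pow_one, pow_one, pow_zero, mul_one, one_mul, exp_add,
      show (2 : ℝ) * n = (2 : ℕ) * n by norm_num, exp_nat_mul]
    exact h
  · have h5 := mul_le_mul h (pow_le_pow_left₀ (by positivity) h0 i) (by positivity) (by positivity)
    refine expo2_key (k := 6) (m := 22 + 4 * i) (p := 16) (q := 1 + i) (c := 2)
      (x := (6 : ℕ) * (τ - t) + (19 : ℕ) * n + 9 / 10 * n + i * ((2 : ℕ) * n + t))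
      (by norm_num) (by omega) (by omega) (by norm_num) hK hκ hR hN ?_ (by push_cast; linarith)
    simp only [exp_add, exp_nat_mul]
    calc R ^ 6 * V ^ (22 + 4 * i) = R ^ 6 * V ^ 22 * (V ^ 4) ^ i := by
          rw [pow_add, pow_mul, mul_assoc]
      _ ≤ _ := h5
      _ = _ := by rw [mul_pow K, pow_add K]; ring
  · have h6 : R ^ 6 * V ^ 26 ≤ K * (exp (τ - t) ^ 5 * exp n ^ 21 * (2 * exp t) *
        (2 * κ ^ 16 * exp (9 / 10 * n))) := h.trans (by gcongr)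
    have h5 := mul_le_mul h6 (pow_le_pow_left₀ (by positivity) h0 j) (by positivity) (by positivity)
    refine expo2_key (k := 6) (m := 26 + 4 * j) (p := 16) (q := 1 + j) (c := 4)
      (x := (5 : ℕ) * (τ - t) + (21 : ℕ) * n + t + 9 / 10 * n + j * ((2 : ℕ) * n + t))
      (by norm_num) (by omega) (by omega) (by norm_num) hK hκ hR hN ?_ (by push_cast; linarith)
    simp only [exp_add, exp_nat_mul]
    calc R ^ 6 * V ^ (26 + 4 * j) = R ^ 6 * V ^ 26 * (V ^ 4) ^ j := by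
          rw [pow_add, pow_mul, mul_assoc]
      _ ≤ _ := h5
      _ = _ := by rw [mul_pow K, pow_add K]; ring
  · refine expo2_key (k := 4) (m := 40) (p := 32) (q := 1) (c := 8)
      (x := (3 : ℕ) * (τ - t) + (30 : ℕ) * n + (2 : ℕ) * (9 / 10 * n) + t)
      (by norm_num) (by norm_num) (by norm_num) (by norm_num) hK hκ hR hN (h.trans ?_)
      (by push_cast; linarith)
    simp only [exp_add, exp_nat_mul]
    calc _ ≤ K * (exp (τ - t) ^ 3 * exp n ^ 30 * (2 * κ ^ 16 * exp (9 / 10 * n)) ^ 2 *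
          (2 * exp t)) := by gcongr
      _ = _ := by ring

theorem expo2 {σ N T κ V : ℝ} (hσ : 31 / 40 ≤ σ) (hσ1 : σ ≤ 7 / 9) (hN : 1 ≤ N) (hT : N ≤ T)
    (hT' : T ^ 2 ≤ N ^ 3) (hκ : 1 ≤ κ) (hV : 0 < V) (hNV : N ^ σ ≤ κ * V) :
    ∃ T0 : ℝ, N ≤ T0 ∧ T0 ≤ T ∧ (T0 / N) ^ 3 ≤ 2 * κ ^ 16 * N ^ (9 / 10 : ℝ) ∧
      T0 ^ 2 ≤ (2 * κ ^ 16 * N ^ (9 / 10 : ℝ)) ^ 3 ∧
      N ^ 12 * (T0 + (T0 / N) ^ 4) ≤ 2 * κ ^ 16 * N ^ (9 / 10 : ℝ) * V ^ 16 ∧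
      ∀ K R : ℝ, 1 ≤ K → 0 ≤ R →
      (R * V ^ 2 ≤ K * ((T / T0) * N ^ 2) ∨
        (V ^ 4 ≤ K * (N ^ 2 * T0) ∧
          (R ^ 6 * V ^ 22 ≤ K * ((T / T0) ^ 6 * N ^ 19 * (2 * κ ^ 16 * N ^ (9 / 10 : ℝ))) ∨
            R ^ 6 * V ^ 26 ≤ K * ((T / T0) ^ 5 * N ^ 21 * (T0 + (T0 / N) ^ 4) *
              (2 * κ ^ 16 * N ^ (9 / 10 : ℝ))))) ∨
        R ^ 4 * V ^ 40 ≤ K * ((T / T0) ^ 3 * N ^ 30 * (2 * κ ^ 16 * N ^ (9 / 10 : ℝ)) ^ 2 *
          (T0 + (T0 / N) ^ 4))) →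
      R ≤ 2 * K * κ ^ 18 * T ^ (2 - 2 * σ) := by
  obtain ⟨n, rfl⟩ : ∃ n, exp n = N := ⟨log N, exp_log (by linarith)⟩
  obtain ⟨τ, rfl⟩ : ∃ τ, exp τ = T := ⟨log T, exp_log (by linarith)⟩
  rw [← exp_nat_mul, ← exp_nat_mul, exp_le_exp] at hT'
  push_cast at hT'
  have hn : 0 ≤ n := one_le_exp_iff.1 hN
  have hτ : n ≤ τ := exp_le_exp.1 hT
  have e1 : 0 ≤ (σ - 31 / 40) * n := mul_nonneg (by linarith) hn
  have e2 : 0 ≤ (7 / 9 - σ) * (τ - n) := mul_nonneg (by linarith) (by linarith)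
  have e3 : 0 ≤ (σ - 31 / 40) * (3 * n - 2 * τ) := mul_nonneg (by linarith) (by linarith)
  have e4 : 0 ≤ (7 / 9 - σ) * n := mul_nonneg (by linarith) hn
  simp only [← exp_mul, mul_comm n σ, mul_comm τ (2 - 2 * σ), mul_comm n (9 / 10)] at hNV ⊢
  have k1 : (1 : ℝ) ≤ 2 * κ ^ 16 := by linarith [one_le_pow₀ (n := 16) hκ]
  have main : ∀ t : ℝ, n ≤ t → t ≤ 13 / 10 * n →
      (exp t / exp n) ^ 3 ≤ 2 * κ ^ 16 * exp (9 / 10 * n) ∧
      exp t ^ 2 ≤ (2 * κ ^ 16 * exp (9 / 10 * n)) ^ 3 ∧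
      exp n ^ 12 * (exp t + (exp t / exp n) ^ 4) ≤ 2 * κ ^ 16 * exp (9 / 10 * n) * V ^ 16 ∧
      exp t + (exp t / exp n) ^ 4 ≤ 2 * exp t := by
    intro t h1 h2
    have a0 : exp (9 / 10 * n) ≤ 2 * κ ^ 16 * exp (9 / 10 * n) :=
      le_mul_of_one_le_left (exp_pos _).le k1
    have a4 : exp t + (exp t / exp n) ^ 4 ≤ 2 * exp t := by
      have : exp (4 * (t - n)) ≤ exp t := exp_le_exp.2 (by linarith)
      rw [expo_Y]
      linarith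
    refine ⟨le_trans ?_ a0, le_trans ?_ (pow_le_pow_left₀ (exp_pos _).le a0 3), ?_, a4⟩
    · rw [← exp_sub, ← exp_nat_mul]
      exact exp_le_exp.2 (by push_cast; linarith)
    · rw [← exp_nat_mul, ← exp_nat_mul]
      exact exp_le_exp.2 (by push_cast; linarith)
    · have a1 : exp n ^ 12 * exp t ≤ exp (9 / 10 * n) * exp (σ * n) ^ 16 := by
        rw [← exp_nat_mul, ← exp_nat_mul, ← exp_add, ← exp_add]
        exact exp_le_exp.2 (by push_cast; linarith)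
      have a2 : exp (σ * n) ^ 16 ≤ (κ * V) ^ 16 := pow_le_pow_left₀ (exp_pos _).le hNV 16
      calc _ ≤ exp n ^ 12 * (2 * exp t) := by gcongr
        _ = 2 * (exp n ^ 12 * exp t) := by ring
        _ ≤ 2 * (exp (9 / 10 * n) * (κ * V) ^ 16) :=
            mul_le_mul_of_nonneg_left (a1.trans (by gcongr)) (by norm_num)
        _ = _ := by ring
  by_cases hA : τ ≤ 13 / 10 * n
  · obtain ⟨m1, m2, m3, m4⟩ := main τ hτ hA
    refine ⟨exp τ, hT, le_rfl, m1, m2, m3, fun K R hK hR h =>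
      expo2_gen 2 1 le_rfl (by norm_num) m4 ?_ ?_ ?_ ?_ hK hκ hV hR hNV h⟩
    all_goals push_cast
    all_goals nlinarith
  · obtain ⟨m1, m2, m3, m4⟩ := main (13 / 10 * n) (by linarith) le_rfl
    refine ⟨exp (13 / 10 * n), exp_le_exp.2 (by linarith), exp_le_exp.2 (by linarith), m1, m2, m3,
      fun K R hK hR h =>
        expo2_gen 0 0 (by norm_num) (by norm_num) m4 ?_ ?_ ?_ ?_ hK hκ hV hR hNV h⟩
    all_goals push_cast
    all_goals nlinarith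

end Pool.Agent.Lib.MP_ecd12e_nt.DH2
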