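import Pool.Agent.Lib.MP_ecd12e_nt.DH.Real

/-!
From the range up to three halves to all ranges and to real points, for any threshold.
-/

set_option autoImplicit false

namespace Pool.Agent.Lib.MP_ecd12e_nt.DH2

open Finset Real
open Pool.Agent.Lib.MP_ecd12e_nt.Bar (ei)
open Pool.Agent.Lib.MP_ecd12e_nt.GM (DD)
open Pool.Agent.Lib.MP_ecd12e_nt.Sch
open Pool.Agent.Lib.MP_ecd12e_nt.DH

/-- The bound in the range up to three halves, for exponents at least `s0`. -/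
def Wk (s0 : ℝ) : Prop := ∀ ε : ℝ, 0 < ε →
  ∃ C : ℝ, 0 ≤ C ∧ ∀ (σ : ℝ) (N : ℕ) (T κ V : ℝ) (b : ℕ → ℂ) (W : Finset ℤ), s0 ≤ σ → σ ≤ 1 →
    1 ≤ N → (N : ℝ) ≤ T → T ^ 2 ≤ (N : ℝ) ^ 3 → 1 ≤ κ → (N : ℝ) ^ σ ≤ κ * V → LV N T V b W →
    (W.card : ℝ) ≤ C * κ ^ 300 * T ^ (2 - 2 * σ + ε)

lemma gen_k {s0 : ℝ} (hs : 1 / 2 ≤ s0) (hw : Wk s0) (k : ℕ) {ε : ℝ} (hε : 0 < ε) :
    ∃ C : ℝ, 0 ≤ C ∧ ∀ (σ : ℝ) (N : ℕ) (T κ V : ℝ) (b : ℕ → ℂ) (W : Finset ℤ), 2 ≤ k →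
      s0 ≤ σ → σ ≤ 1 → 1 ≤ N → (N : ℝ) ^ k ≤ T → T ≤ (N : ℝ) ^ (k + 1) → 1 ≤ κ →
      (N : ℝ) ^ σ ≤ κ * V → LV N T V b W →
      (W.card : ℝ) ≤ C * κ ^ (300 * k) * T ^ (2 - 2 * σ + ε) := by
  classical
  obtain ⟨C1, hC1, H1⟩ := hw _ (half_pos hε)
  obtain ⟨j, hj⟩ := exists_nat_ge (600 * k / ε)
  rw [div_le_iff₀ hε] at hj
  have h2k : (1 : ℝ) ≤ 2 ^ k := one_le_pow₀ (by norm_num)
  obtain ⟨Ct, hCt, Ht⟩ := exists_tauLe (k := j + 1) j.succ_pos (A := 2 ^ k) h2k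
  refine ⟨(k + 1) * (C1 * (2 ^ k * (k + 1) * Ct ^ k) ^ 300 * (2 ^ k) ^ (1 + ε)), by positivity, ?_⟩
  intro σ N T κ V b W hk hσ hσ1 hN hT1 hT2 hκ hV hLV
  have hN' : (1 : ℝ) ≤ N := by exact_mod_cast hN
  have hk' : (2 : ℝ) ≤ k := by exact_mod_cast hk
  have hT : 1 ≤ T := (one_le_pow₀ hN').trans hT1
  have hT0 : 0 < T := by linarith
  have hV0 : 0 < V := by
    have : 0 < κ * V := lt_of_lt_of_le (Real.rpow_pos_of_pos (by linarith) _) hV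
    exact (mul_pos_iff_of_pos_left (by linarith)).1 this
  obtain ⟨Y, hYd⟩ : ∃ Y : ℝ, Y = T ^ (ε / (600 * k)) := ⟨_, rfl⟩
  have hY : 1 ≤ Y := hYd ▸ Real.one_le_rpow hT (by positivity)
  have hYj : T ≤ Y ^ (j + 1) := by
    rw [hYd, ← Real.rpow_natCast, ← Real.rpow_mul hT0.le]
    refine (Real.rpow_one T).symm.le.trans (Real.rpow_le_rpow_of_exponent_le hT ?_)
    rw [div_mul_eq_mul_div, le_div_iff₀ (by positivity)]
    push_cast
    nlinarith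
  have hYk : (Y ^ k) ^ 300 = T ^ (ε / 2) := by
    rw [hYd, ← pow_mul, ← Real.rpow_natCast, ← Real.rpow_mul hT0.le]
    congr 1
    push_cast
    field_simp
    ring
  have hP : 1 ≤ Ct * Y := one_le_mul_of_one_le_of_one_le hCt hY
  have hτ : TauLe ((2 * (N : ℝ)) ^ k) (Ct * Y) := (Ht Y hY).mono (by
    rw [mul_pow]
    exact mul_le_mul_of_nonneg_left (hT1.trans hYj) (by positivity))
  have hI : InI (Icc N (2 * N)) (N : ℝ) 2 := fun n hn => by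
    rw [mem_Icc] at hn
    exact ⟨by exact_mod_cast hn.1, by exact_mod_cast hn.2⟩
  obtain ⟨J, c, hJ, hc, hpow⟩ := dp_pow (by linarith) hP hI hLV.hb (by omega : 1 ≤ k) hτ
  obtain ⟨B, hBd⟩ : ∃ B : ℝ, B = (Ct * Y) ^ k := ⟨_, rfl⟩
  have hB : 1 ≤ B := hBd ▸ one_le_pow₀ hP
  have hB0 : 0 < B := by linarith
  rw [← hBd] at hc
  have hM : 1 ≤ N ^ k := Nat.one_le_pow _ _ hN
  obtain ⟨bb, hbb, hsum⟩ := big_blocks (M := N ^ k) (k := k) hM (by push_cast; exact hJ) hB0 hc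
  obtain ⟨V', hV'⟩ : ∃ V' : ℝ, V' = V ^ k / ((k + 1) * B) := ⟨_, rfl⟩
  have hVV : (k + 1) * B * V' = V ^ k := by
    rw [hV']
    field_simp
  let Wi : ℕ → Finset ℤ := fun i => W.filter fun t => V' ≤
    ‖∑ n ∈ Icc (2 ^ i * N ^ k) (2 * (2 ^ i * N ^ k)), bb i n * ei (t * Real.log n)‖
  have hcov : W ⊆ (range (k + 1)).biUnion Wi := by
    intro t ht
    by_contra hn
    have hlt : ∀ i ∈ range (k + 1), B * ‖∑ n ∈ Icc (2 ^ i * N ^ k) (2 * (2 ^ i * N ^ k)),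
        bb i n * ei (t * Real.log n)‖ < B * V' := fun i hi => by
      refine mul_lt_mul_of_pos_left (not_le.1 fun h => hn ?_) hB0
      exact mem_biUnion.2 ⟨i, hi, mem_filter.2 ⟨ht, h⟩⟩
    have h1 := (hsum t).trans_lt (sum_lt_sum_of_nonempty nonempty_range_add_one hlt)
    rw [← hpow, norm_pow, sum_const, card_range, nsmul_eq_mul] at h1
    have h2 : V ^ k ≤ ‖dp (Icc N (2 * N)) b t‖ ^ k := pow_le_pow_left₀ hV0.le (hLV.big t ht) k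
    push_cast at h1
    nlinarith
  have hone : ∀ i ∈ range (k + 1), ((Wi i).card : ℝ) ≤
      C1 * (2 ^ k * (k + 1) * Ct ^ k) ^ 300 * (2 ^ k) ^ (1 + ε) * κ ^ (300 * k) *
        T ^ (2 - 2 * σ + ε) := by
    intro i hi
    have hik : i ≤ k := Nat.lt_succ_iff.1 (mem_range.1 hi)
    have h2i : (1 : ℝ) ≤ 2 ^ i := one_le_pow₀ (by norm_num)
    have h2ik : (2 : ℝ) ^ i ≤ 2 ^ k := pow_le_pow_right₀ (by norm_num) hik
    obtain ⟨M, hMd⟩ : ∃ M : ℕ, M = 2 ^ i * N ^ k := ⟨_, rfl⟩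
    have hMr : (M : ℝ) = 2 ^ i * (N : ℝ) ^ k := by rw [hMd]; push_cast; rfl
    have hNk : (1 : ℝ) ≤ (N : ℝ) ^ k := one_le_pow₀ hN'
    have hM1 : (N : ℝ) ^ k ≤ M := by rw [hMr]; nlinarith
    have hM2 : (M : ℝ) ≤ 2 ^ k * T := by rw [hMr]; gcongr
    have hM0 : (1 : ℝ) ≤ M := hNk.trans hM1
    have hsq : max T (M : ℝ) ^ 2 ≤ (M : ℝ) ^ 3 := by
      rcases le_total T M with h | h
      · rw [max_eq_right h]
        exact pow_le_pow_right₀ hM0 (by norm_num)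
      · rw [max_eq_left h]
        calc T ^ 2 ≤ ((N : ℝ) ^ (k + 1)) ^ 2 := pow_le_pow_left₀ hT0.le hT2 2
          _ ≤ ((N : ℝ) ^ k) ^ 3 := by
            rw [← pow_mul, ← pow_mul]
            exact pow_le_pow_right₀ hN' (by omega)
          _ ≤ _ := pow_le_pow_left₀ (by positivity) hM1 3
    have hκk : 1 ≤ κ ^ k := one_le_pow₀ hκ
    have hκ' : 1 ≤ 2 ^ k * κ ^ k * ((k + 1) * B) :=
      one_le_mul_of_one_le_of_one_le (one_le_mul_of_one_le_of_one_le h2k hκk)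
        (one_le_mul_of_one_le_of_one_le (by linarith) hB)
    have hMV : (M : ℝ) ^ σ ≤ 2 ^ k * κ ^ k * ((k + 1) * B) * V' := by
      rw [mul_assoc, hVV, hMr, Real.mul_rpow (by positivity) (by positivity), mul_assoc,
        ← mul_pow]
      have e : ((N : ℝ) ^ k) ^ σ = ((N : ℝ) ^ σ) ^ k := by
        rw [← Real.rpow_natCast, ← Real.rpow_natCast, ← Real.rpow_mul (by positivity),
          ← Real.rpow_mul (by positivity), mul_comm]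
      rw [e]
      refine mul_le_mul ?_ (pow_le_pow_left₀ (by positivity) hV k) (by positivity) (by positivity)
      calc ((2 : ℝ) ^ i) ^ σ ≤ ((2 : ℝ) ^ i) ^ (1 : ℝ) :=
            Real.rpow_le_rpow_of_exponent_le h2i hσ1
        _ = 2 ^ i := Real.rpow_one _
        _ ≤ _ := h2ik
    have hL : LV M (max T M) V' (bb i) (Wi i) :=
      ⟨hbb i, fun t ht => ⟨(hLV.inr t (mem_filter.1 ht).1).1,
        (hLV.inr t (mem_filter.1 ht).1).2.trans (le_max_left _ _)⟩,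
        fun t ht => hMd ▸ (mem_filter.1 ht).2⟩
    refine (H1 σ M (max T M) _ V' (bb i) (Wi i) hσ hσ1 (by exact_mod_cast hM0) (le_max_right _ _)
      hsq hκ' hMV hL).trans ?_
    have hmax : max T (M : ℝ) ≤ 2 ^ k * T := max_le (by nlinarith) hM2
    have h3 : max T (M : ℝ) ^ (2 - 2 * σ + ε / 2) ≤
        (2 ^ k) ^ (1 + ε) * T ^ (2 - 2 * σ + ε / 2) := by
      refine (Real.rpow_le_rpow (hT0.le.trans (le_max_left _ _)) hmax (by linarith)).trans ?_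
      rw [Real.mul_rpow (by positivity) hT0.le]
      exact mul_le_mul_of_nonneg_right (Real.rpow_le_rpow_of_exponent_le h2k (by linarith))
        (by positivity)
    have h4 : (2 ^ k * κ ^ k * ((k + 1) * B)) ^ 300 =
        (2 ^ k * (k + 1) * Ct ^ k) ^ 300 * κ ^ (300 * k) * T ^ (ε / 2) := by
      have e : 2 ^ k * κ ^ k * ((k + 1) * B) = 2 ^ k * (k + 1) * Ct ^ k * κ ^ k * Y ^ k := by
        rw [hBd, mul_pow]
        ring
      rw [← hYk, e, mul_comm 300 k, pow_mul κ, ← mul_pow, ← mul_pow]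
    have h5 : T ^ (2 - 2 * σ + ε) = T ^ (ε / 2) * T ^ (2 - 2 * σ + ε / 2) := by
      rw [← Real.rpow_add hT0]
      congr 1
      ring
    rw [h4, h5]
    refine (mul_le_mul_of_nonneg_left h3 (by positivity)).trans (le_of_eq ?_)
    generalize (2 ^ k * ((k : ℝ) + 1) * Ct ^ k) ^ 300 = x
    generalize κ ^ (300 * k) = y
    ring
  calc (W.card : ℝ) ≤ ((range (k + 1)).biUnion Wi).card := by exact_mod_cast card_le_card hcov
    _ ≤ ∑ i ∈ range (k + 1), ((Wi i).card : ℝ) := by exact_mod_cast card_biUnion_le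
    _ ≤ _ := by
      refine (sum_le_sum hone).trans (le_of_eq ?_)
      rw [sum_const, card_range, nsmul_eq_mul]
      push_cast
      generalize (2 ^ k * ((k : ℝ) + 1) * Ct ^ k) ^ 300 = x
      generalize κ ^ (300 * k) = y
      ring

theorem gen_big {s0 : ℝ} (hs : 1 / 2 ≤ s0) (hw : Wk s0) (A : ℝ) {ε : ℝ} (hε : 0 < ε) :
    ∃ (C : ℝ) (a : ℕ), 0 ≤ C ∧ ∀ (σ : ℝ) (N : ℕ) (T κ V : ℝ) (b : ℕ → ℂ) (W : Finset ℤ),
      s0 ≤ σ → σ ≤ 1 → 1 ≤ N → (N : ℝ) ^ 2 ≤ T → T ≤ (N : ℝ) ^ A → 1 ≤ κ →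
      (N : ℝ) ^ σ ≤ κ * V → LV N T V b W →
      (W.card : ℝ) ≤ C * κ ^ a * T ^ (2 - 2 * σ + ε) := by
  choose C hC H using fun k => gen_k hs hw k hε
  refine ⟨∑ k ∈ range (⌈A⌉₊ + 3), C k, 300 * (⌈A⌉₊ + 2), sum_nonneg fun k _ => hC k, ?_⟩
  intro σ N T κ V b W hσ hσ1 hN hT1 hT2 hκ hV hLV
  have hN' : (1 : ℝ) ≤ N := by exact_mod_cast hN
  have hT : 1 ≤ T := (one_le_pow₀ hN').trans hT1
  obtain ⟨k, hk, hkA, h1, h2⟩ : ∃ k : ℕ, 2 ≤ k ∧ k ≤ ⌈A⌉₊ + 2 ∧ (N : ℝ) ^ k ≤ T ∧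
      T ≤ (N : ℝ) ^ (k + 1) := by
    rcases hN'.eq_or_lt with h | h
    · refine ⟨2, le_rfl, by omega, hT1, ?_⟩
      rw [← h] at hT2 ⊢
      simpa using hT2
    · obtain ⟨k, h1, h2⟩ := exists_nat_pow_near hT h
      refine ⟨k, ?_, ?_, h1, h2.le⟩
      · have := (pow_lt_pow_iff_right₀ h).1 (hT1.trans_lt h2)
        omega
      · have h3 : (N : ℝ) ^ k ≤ (N : ℝ) ^ ⌈A⌉₊ := by
          refine (h1.trans hT2).trans ?_
          rw [← Real.rpow_natCast]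
          exact Real.rpow_le_rpow_of_exponent_le hN' (Nat.le_ceil A)
        have := (pow_le_pow_iff_right₀ h).1 h3
        omega
  refine (H k σ N T κ V b W hk hσ hσ1 hN h1 h2 hκ hV hLV).trans ?_
  refine mul_le_mul_of_nonneg_right ?_ (Real.rpow_nonneg (by linarith) _)
  exact mul_le_mul (single_le_sum (f := C) (fun k _ => hC k) (mem_range.2 (by omega)))
    (pow_le_pow_right₀ hκ (by omega)) (by positivity) (sum_nonneg fun k _ => hC k)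

theorem gen_all {s0 : ℝ} (hs : 1 / 2 ≤ s0) (hw : Wk s0) (A : ℝ) {ε : ℝ} (hε : 0 < ε) :
    ∃ (C : ℝ) (a : ℕ), 0 ≤ C ∧ ∀ (σ : ℝ) (N : ℕ) (T κ V : ℝ) (b : ℕ → ℂ) (W : Finset ℤ),
      s0 ≤ σ → σ ≤ 1 → 1 ≤ N →
      (((N : ℝ) ≤ T ∧ T ^ 2 ≤ (N : ℝ) ^ 3) ∨ ((N : ℝ) ^ 2 ≤ T ∧ T ≤ (N : ℝ) ^ A)) → 1 ≤ κ →
      (N : ℝ) ^ σ ≤ κ * V → LV N T V b W →
      (W.card : ℝ) ≤ C * κ ^ a * T ^ (2 - 2 * σ + ε) := by
  obtain ⟨C1, h1, H1⟩ := hw _ hε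
  obtain ⟨C2, a, h2, H2⟩ := gen_big hs hw A hε
  refine ⟨C1 + C2, 300 + a, by positivity, ?_⟩
  intro σ N T κ V b W hσ hσ1 hN hT hκ hV hLV
  have hN' : (1 : ℝ) ≤ N := by exact_mod_cast hN
  have hT0 : 0 ≤ T := by
    rcases hT with h | h
    · linarith [h.1]
    · exact le_trans (by positivity) h.1
  have hp : 0 ≤ T ^ (2 - 2 * σ + ε) := Real.rpow_nonneg hT0 _
  have k1 : κ ^ 300 ≤ κ ^ (300 + a) := pow_le_pow_right₀ hκ (by omega)
  have k2 : κ ^ a ≤ κ ^ (300 + a) := pow_le_pow_right₀ hκ (by omega)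
  have k0 : 0 ≤ κ ^ (300 + a) := by positivity
  rcases hT with h | h
  · refine (H1 σ N T κ V b W hσ hσ1 hN h.1 h.2 hκ hV hLV).trans ?_
    refine mul_le_mul_of_nonneg_right ?_ hp
    nlinarith [mul_le_mul_of_nonneg_left k1 h1, mul_nonneg h2 k0]
  · refine (H2 σ N T κ V b W hσ hσ1 hN h.1 h.2 hκ hV hLV).trans ?_
    refine mul_le_mul_of_nonneg_right ?_ hp
    nlinarith [mul_le_mul_of_nonneg_left k2 h2, mul_nonneg h1 k0]

theorem gen_real {s0 : ℝ} (hs : 1 / 2 ≤ s0) (hw : Wk s0) (A : ℝ) {ε : ℝ} (hε : 0 < ε) :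
    ∃ C : ℝ, ∀ σ : ℝ, s0 ≤ σ → σ ≤ 1 → ∀ N : ℕ, 1 ≤ N → ∀ T : ℝ,
      (((N : ℝ) ≤ T ∧ T ^ 2 ≤ (N : ℝ) ^ 3) ∨ ((N : ℝ) ^ 2 ≤ T ∧ T ≤ (N : ℝ) ^ A)) →
      ∀ b : ℕ → ℂ, (∀ n, ‖b n‖ ≤ 1) →
      ∀ W : Finset ℝ, (∀ t ∈ W, ∀ t' ∈ W, t ≠ t' → 1 ≤ |t - t'|) →
        (∀ t ∈ W, 0 ≤ t ∧ t ≤ T ∧ (N : ℝ) ^ σ ≤ ‖∑ n ∈ Icc N (2 * N),
          b n * Complex.exp (((t * log (n : ℝ) : ℝ) : ℂ) * Complex.I)‖) →
        (W.card : ℝ) ≤ C * T ^ (2 - 2 * σ + ε) := by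
  obtain ⟨C, a, hC0, hC⟩ := gen_all hs hw A (half_pos hε)
  obtain ⟨C', hC0', hC'⟩ := rl_count (half_pos hε)
  refine ⟨C' * (C * (4 * exp 4) ^ a), fun σ hσ hσ1 N hN T hT b hb W hsep hW => ?_⟩
  have hN1 : (1 : ℝ) ≤ N := by exact_mod_cast hN
  have hN' : (0 : ℝ) < N := by linarith
  have hNT : (N : ℝ) ≤ T := by
    rcases hT with h | h
    · exact h.1
    · exact (le_self_pow₀ hN1 (by norm_num)).trans h.1
  have hT0 : 0 < T := by linarith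
  have hV1 : 1 ≤ (N : ℝ) ^ σ := Real.one_le_rpow hN1 (by linarith)
  have hV : 0 < (N : ℝ) ^ σ := by linarith
  set q : ℕ → ℝ := fun j => 4 * (2 ^ j / j.factorial) with hq
  have hq0 : ∀ j, 0 < q j := fun j => by
    have hf : (0 : ℝ) < j.factorial := by exact_mod_cast j.factorial_pos
    simp only [hq]
    positivity
  have hq1 : ∀ j, q j ≤ 4 * exp 4 := fun j =>
    (rl_q j).trans (div_le_self (by positivity) (one_le_pow₀ (by norm_num)))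
  have hQ : (1 : ℝ) ≤ 4 * exp 4 := by linarith [one_le_exp (x := 4) (by norm_num)]
  have hex : ∀ t : ℝ, ∃ j : ℕ, t ∈ W → (N : ℝ) ^ σ / q j < ‖DD N (rl_b N b j) ⌊t⌋‖ := fun t => by
    by_cases ht : t ∈ W
    · obtain ⟨j, hj⟩ := rl_exists b hV ((hW t ht).2.2.trans (rl_norm hN b t).ge)
      exact ⟨j, fun _ => hj⟩
    · exact ⟨0, fun h => absurd h ht⟩
  choose J hJ using hex
  have hfib : ∀ j : ℕ, ((W.filter fun t => J t = j).card : ℝ)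
      ≤ C * (4 * exp 4) ^ a * T ^ (2 - 2 * σ + ε / 2) := fun j => by
    have h1 : ((W.filter fun t => J t = j).image fun t => ⌊t⌋).card
        = (W.filter fun t => J t = j).card := card_image_of_injOn fun t ht t' ht' h => by
      by_contra hne
      have h2 := hsep t (mem_filter.1 ht).1 t' (mem_filter.1 ht').1 hne
      linarith [Int.abs_sub_lt_one_of_floor_eq_floor h]
    have h3 : (N : ℝ) ^ σ ≤ 4 * exp 4 * ((N : ℝ) ^ σ / q j) := by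
      rw [← mul_div_assoc, le_div_iff₀ (hq0 j), mul_comm]
      exact mul_le_mul_of_nonneg_right (hq1 j) hV.le
    have h2 := hC σ N T _ ((N : ℝ) ^ σ / q j) (rl_b N b j)
      ((W.filter fun t => J t = j).image fun t => ⌊t⌋) hσ hσ1 hN hT hQ h3
      ⟨rl_b_le hN hb j, fun k hk => by
        obtain ⟨t, ht, rfl⟩ := mem_image.1 hk
        obtain ⟨ht1, -⟩ := mem_filter.1 ht
        exact ⟨Int.floor_nonneg.2 (hW t ht1).1, (Int.floor_le t).trans (hW t ht1).2.1⟩,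
      fun k hk => by
        obtain ⟨t, ht, rfl⟩ := mem_image.1 hk
        obtain ⟨ht1, ht2⟩ := mem_filter.1 ht
        rw [← ht2]
        exact (hJ t ht1).le.trans_eq (rl_norm hN _ _)⟩
    rwa [h1] at h2
  have hcl := hC' N (W.image J) hN1 fun j hj => by
    obtain ⟨t, ht, rfl⟩ := mem_image.1 hj
    have h1 := (hJ t ht).le.trans (rl_DD hN (rl_b_le hN hb _) _)
    rw [div_le_iff₀ (hq0 _)] at h1
    have h2 := (hV1.trans h1).trans (mul_le_mul_of_nonneg_left (rl_q (J t)) (by positivity))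
    rw [← mul_div_assoc, le_div_iff₀ (by positivity), one_mul] at h2
    linarith
  have hp : (N : ℝ) ^ (ε / 2) ≤ T ^ (ε / 2) := Real.rpow_le_rpow hN'.le hNT (by positivity)
  have e : T ^ (2 - 2 * σ + ε) = T ^ (ε / 2) * T ^ (2 - 2 * σ + ε / 2) := by
    rw [← Real.rpow_add hT0]
    congr 1
    ring
  rw [card_eq_sum_card_image J W]
  push_cast
  calc _ ≤ (W.image J).card • (C * (4 * exp 4) ^ a * T ^ (2 - 2 * σ + ε / 2)) :=
        sum_le_card_nsmul _ _ _ fun j _ => hfib j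
    _ ≤ C' * T ^ (ε / 2) * (C * (4 * exp 4) ^ a * T ^ (2 - 2 * σ + ε / 2)) := by
        rw [nsmul_eq_mul]
        refine mul_le_mul_of_nonneg_right (hcl.trans ?_) (by positivity)
        exact mul_le_mul_of_nonneg_left hp hC0'
    _ = _ := by rw [e]; ring

end Pool.Agent.Lib.MP_ecd12e_nt.DH2
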