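import Pool.Agent.Lib.MP_ecd12e_nt.DH2.Core2
import Pool.Agent.Lib.MP_ecd12e_nt.DH2.Expo2
import Pool.Agent.Lib.MP_ecd12e_nt.DH2.Gen

/-!
The bound in the range up to three halves for the new threshold.
-/

set_option autoImplicit false

namespace Pool.Agent.Lib.MP_ecd12e_nt.DH2

open Finset Real
open Pool.Agent.Lib.MP_ecd12e_nt.Bar (ei)
open Pool.Agent.Lib.MP_ecd12e_nt.Sch
open Pool.Agent.Lib.MP_ecd12e_nt.DH

lemma weak2_root {N c a : ℝ} {k : ℕ} (hN : 1 ≤ N) (ha : a * k ≤ k - 1) (hc : 0 ≤ c)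
    (h : N ≤ c * N ^ a) : N ≤ c ^ k := by
  have hN0 : 0 < N := by linarith
  have h1 : N ^ k ≤ c ^ k * (N ^ a) ^ k := (pow_le_pow_left₀ hN0.le h k).trans_eq (mul_pow _ _ _)
  have h2 : (N ^ a) ^ k ≤ N ^ ((k : ℝ) - 1) := by
    rw [← Real.rpow_natCast, ← Real.rpow_mul hN0.le]
    exact Real.rpow_le_rpow_of_exponent_le hN ha
  have h3 : N ^ k = N * N ^ ((k : ℝ) - 1) := by
    rw [← Real.rpow_natCast, ← Real.rpow_one_add' hN0.le, add_sub_cancel]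
    intro h0
    rw [add_sub_cancel] at h0
    rw [h0] at ha
    linarith
  have h4 : 0 < N ^ ((k : ℝ) - 1) := Real.rpow_pos_of_pos hN0 _
  refine le_of_mul_le_mul_right ?_ h4
  rw [← h3]
  exact h1.trans (mul_le_mul_of_nonneg_left h2 (by positivity))

theorem wk : Wk (31 / 40) := by
  intro ε hε
  have hη : 0 < min ε (1 / 100) := lt_min hε (by norm_num)
  obtain ⟨N0, H⟩ := core2 hη
  obtain ⟨C1, hC1, H1⟩ := weak1 hε
  refine ⟨(N0 : ℝ) ^ 2 + 2 ^ 21 + C1, by positivity, ?_⟩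
  intro σ N T κ V b W hσ hσ1 hN hT hT' hκ hV hLV
  have hN1 : (1 : ℝ) ≤ N := by exact_mod_cast hN
  have hN0 : (0 : ℝ) < N := by linarith
  have hT1 : 1 ≤ T := hN1.trans hT
  have hT0 : 0 < T := by linarith
  have hκ0 : 0 < κ := by linarith
  have hsq : (0 : ℝ) ≤ (N0 : ℝ) ^ 2 := by positivity
  have hp : 1 ≤ T ^ (2 - 2 * σ + ε) := Real.one_le_rpow hT1 (by linarith)
  rcases le_total (7 / 9) σ with h79 | h79
  · refine (H1 σ N T κ V b W h79 hσ1 hN hT hT' hκ hV hLV).trans ?_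
    have e : κ ^ 100 ≤ κ ^ 300 := pow_le_pow_right₀ hκ (by norm_num)
    exact mul_le_mul_of_nonneg_right (mul_le_mul (by linarith [show (0 : ℝ) ≤ 2 ^ 21 by norm_num])
      e (by positivity) (by positivity)) (by linarith)
  have hR : (W.card : ℝ) ≤ T + 1 := card_le_of_inR hT0.le hLV.inr
  have k1 : 1 ≤ κ ^ 300 := one_le_pow₀ hκ
  have fin : (W.card : ℝ) ≤ ((N0 : ℝ) ^ 2 + 2 ^ 21 + C1) * κ ^ 300 →
      (W.card : ℝ) ≤ ((N0 : ℝ) ^ 2 + 2 ^ 21 + C1) * κ ^ 300 * T ^ (2 - 2 * σ + ε) := fun h =>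
    h.trans (le_mul_of_one_le_right (by positivity) hp)
  have fin2 : (N : ℝ) ≤ (2 * κ ^ 20) ^ 10 →
      (W.card : ℝ) ≤ ((N0 : ℝ) ^ 2 + 2 ^ 21 + C1) * κ ^ 300 * T ^ (2 - 2 * σ + ε) := fun h => by
    refine fin ?_
    have e1 : T ≤ (2 * κ ^ 20) ^ 15 := by
      refine le_of_pow_le_pow_left₀ (n := 2) (by norm_num) (by positivity) (hT'.trans ?_)
      rw [← pow_mul, show 15 * 2 = 10 * 3 by norm_num, pow_mul]
      exact pow_le_pow_left₀ hN0.le h 3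
    have e2 : (2 * κ ^ 20) ^ 15 = 2 ^ 15 * κ ^ 300 := by rw [mul_pow, ← pow_mul]
    have e4 : 0 ≤ ((N0 : ℝ) ^ 2 + C1) * κ ^ 300 := by positivity
    calc (W.card : ℝ) ≤ 2 ^ 21 * κ ^ 300 := by linarith
      _ ≤ ((N0 : ℝ) ^ 2 + 2 ^ 21 + C1) * κ ^ 300 := by linarith
  have k20 : ∀ m : ℕ, m ≤ 20 → 2 * κ ^ m ≤ 2 * κ ^ 20 := fun m hm =>
    mul_le_mul_of_nonneg_left (pow_le_pow_right₀ hκ hm) (by norm_num)
  rcases lt_or_ge N N0 with hlt | hge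
  · refine fin ?_
    have hTN : T ≤ (N : ℝ) ^ 2 := by
      refine le_of_pow_le_pow_left₀ (n := 2) (by norm_num) (by positivity) (hT'.trans ?_)
      rw [← pow_mul]
      exact pow_le_pow_right₀ hN1 (by norm_num)
    have e0 : (N : ℝ) ≤ N0 := by exact_mod_cast hlt.le
    have e1 : (N : ℝ) ^ 2 ≤ (N0 : ℝ) ^ 2 := pow_le_pow_left₀ hN0.le e0 2
    calc (W.card : ℝ) ≤ (N0 : ℝ) ^ 2 + 2 ^ 21 + C1 := by linarith
      _ ≤ _ := le_mul_of_one_le_right (by positivity) k1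
  rcases lt_or_ge V 1 with hV1 | hV1
  · refine fin2 (weak2_root (a := 1 / 2) hN1 (by norm_num) (by positivity) ?_)
    have e1 : (N : ℝ) ^ (1 / 2 : ℝ) ≤ (N : ℝ) ^ σ :=
      Real.rpow_le_rpow_of_exponent_le hN1 (by linarith)
    have e2 : κ * V ≤ κ := mul_le_of_le_one_right hκ0.le hV1.le
    have e3 : (N : ℝ) = (N : ℝ) ^ (1 / 2 : ℝ) * (N : ℝ) ^ (1 / 2 : ℝ) := by
      rw [← Real.rpow_add hN0]; norm_num
    have e4 := k20 1 (by norm_num)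
    rw [pow_one] at e4
    calc (N : ℝ) = _ := e3
      _ ≤ _ := mul_le_mul_of_nonneg_right (by linarith) (by positivity)
  have hV0 : 0 < V := by linarith
  rcases le_total (N : ℝ) (2 * κ ^ 16 * (N : ℝ) ^ (9 / 10 : ℝ)) with hY | hY
  · refine fin2 (weak2_root (a := 9 / 10) hN1 (by norm_num) (by positivity) (hY.trans ?_))
    exact mul_le_mul_of_nonneg_right (k20 16 (by norm_num)) (by positivity)
  obtain ⟨T0, h1, h2, h3, h4, h5, E⟩ := expo2 hσ h79 hN1 hT hT' hκ hV0 hV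
  have hK : 1 ≤ (N : ℝ) ^ min ε (1 / 100) := Real.one_le_rpow hN1 hη.le
  have hK' : (N : ℝ) ^ min ε (1 / 100) ≤ (N : ℝ) ^ (1 / 100 : ℝ) :=
    Real.rpow_le_rpow_of_exponent_le hN1 (min_le_right _ _)
  by_cases hV4 : V ^ 4 ≤ (N : ℝ) ^ min ε (1 / 100) * (N : ℝ) ^ 3
  · have e1 : ((N : ℝ) ^ σ) ^ 4 ≤ κ ^ 4 * ((N : ℝ) ^ (1 / 100 : ℝ) * (N : ℝ) ^ 3) := by
      calc _ ≤ (κ * V) ^ 4 := pow_le_pow_left₀ (by positivity) hV 4
        _ = κ ^ 4 * V ^ 4 := mul_pow _ _ _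
        _ ≤ _ := mul_le_mul_of_nonneg_left (hV4.trans (by gcongr)) (by positivity)
    have e2 : (N : ℝ) * (N : ℝ) ^ (21 / 10 : ℝ) ≤ ((N : ℝ) ^ σ) ^ 4 := by
      rw [← Real.rpow_one_add' hN0.le (by norm_num), ← Real.rpow_natCast, ← Real.rpow_mul hN0.le]
      exact Real.rpow_le_rpow_of_exponent_le hN1 (by push_cast; linarith)
    have e3 : (N : ℝ) ^ (1 / 100 : ℝ) * (N : ℝ) ^ 3 =
        (N : ℝ) ^ (91 / 100 : ℝ) * (N : ℝ) ^ (21 / 10 : ℝ) := by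
      rw [← Real.rpow_natCast, ← Real.rpow_add hN0, ← Real.rpow_add hN0]
      norm_num
    rw [e3, ← mul_assoc] at e1
    have e4 := le_of_mul_le_mul_right (e2.trans e1) (Real.rpow_pos_of_pos hN0 _)
    have e5 := weak2_root (a := 91 / 100) (k := 12) hN1 (by norm_num) (by positivity) e4
    refine fin2 (e5.trans ?_)
    rw [← pow_mul, mul_pow, ← pow_mul]
    have e6 : κ ^ (4 * 12) ≤ κ ^ (20 * 10) := pow_le_pow_right₀ hκ (by norm_num)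
    have e7 : 0 ≤ κ ^ (20 * 10) := by positivity
    linarith
  have key : ∀ U : Finset ℤ, U ⊆ W → U.card ≤ N →
      (U.card : ℝ) ≤ 2 * (N : ℝ) ^ min ε (1 / 100) * κ ^ 18 * T ^ (2 - 2 * σ) := fun U hU hc => by
    refine E _ _ hK (Nat.cast_nonneg _) ?_
    rcases H N T T0 _ V b U hge h1 h2 hT' hV1
      ⟨hLV.hb, fun t ht => hLV.inr t (hU ht), fun t ht => hLV.big t (hU ht)⟩ hc h3 h4 h5 hY with
      h | h | h | h
    · exact Or.inl h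
    · exact absurd h hV4
    · exact Or.inr (Or.inl h)
    · exact Or.inr (Or.inr h)
  rcases le_or_gt W.card N with hc | hc
  · refine (key W (Subset.refl _) hc).trans ?_
    have e1 : (N : ℝ) ^ min ε (1 / 100) ≤ T ^ ε :=
      (Real.rpow_le_rpow hN0.le hT hη.le).trans
        (Real.rpow_le_rpow_of_exponent_le hT1 (min_le_left _ _))
    have e2 : κ ^ 18 ≤ κ ^ 300 := pow_le_pow_right₀ hκ (by norm_num)
    have e3 : 0 ≤ T ^ (2 - 2 * σ) := Real.rpow_nonneg hT0.le _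
    have e4 : 0 ≤ T ^ ε := Real.rpow_nonneg hT0.le _
    rw [Real.rpow_add hT0]
    calc 2 * (N : ℝ) ^ min ε (1 / 100) * κ ^ 18 * T ^ (2 - 2 * σ)
        ≤ 2 * T ^ ε * κ ^ 300 * T ^ (2 - 2 * σ) := by gcongr
      _ = 2 * (κ ^ 300 * (T ^ (2 - 2 * σ) * T ^ ε)) := by ring
      _ ≤ ((N0 : ℝ) ^ 2 + 2 ^ 21 + C1) * (κ ^ 300 * (T ^ (2 - 2 * σ) * T ^ ε)) :=
          mul_le_mul_of_nonneg_right (by linarith) (by positivity)
      _ = _ := by ring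
  · obtain ⟨U, hU, hUc⟩ := exists_subset_card_eq hc.le
    have e1 := key U hU hUc.le
    rw [hUc] at e1
    have a1 : T ^ (2 - 2 * σ) ≤ (N : ℝ) ^ (27 / 40 : ℝ) := by
      calc T ^ (2 - 2 * σ) ≤ T ^ (9 / 20 : ℝ) :=
            Real.rpow_le_rpow_of_exponent_le hT1 (by linarith)
        _ = (T ^ 2) ^ (9 / 40 : ℝ) := by
            rw [← Real.rpow_natCast, ← Real.rpow_mul hT0.le]; norm_num
        _ ≤ ((N : ℝ) ^ 3) ^ (9 / 40 : ℝ) := Real.rpow_le_rpow (by positivity) hT' (by norm_num)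
        _ = _ := by rw [← Real.rpow_natCast, ← Real.rpow_mul hN0.le]; norm_num
    have a2 : (N : ℝ) ^ (1 / 100 : ℝ) * (N : ℝ) ^ (27 / 40 : ℝ) = (N : ℝ) ^ (137 / 200 : ℝ) := by
      rw [← Real.rpow_add hN0]; norm_num
    refine fin2 (weak2_root (a := 137 / 200) hN1 (by norm_num) (by positivity) (e1.trans ?_))
    have a3 : 0 ≤ T ^ (2 - 2 * σ) := Real.rpow_nonneg hT0.le _
    calc _ ≤ 2 * (N : ℝ) ^ (1 / 100 : ℝ) * κ ^ 18 * (N : ℝ) ^ (27 / 40 : ℝ) := by gcongr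
      _ = 2 * κ ^ 18 * (N : ℝ) ^ (137 / 200 : ℝ) := by rw [← a2]; ring
      _ ≤ _ := mul_le_mul_of_nonneg_right (k20 18 (by norm_num)) (by positivity)

end Pool.Agent.Lib.MP_ecd12e_nt.DH2
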